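import Mathlib
import Pool.Agent.Helper61_Gamma.Rep

/-!
Certificates: a set of points of `PG(2,7)` with prescribed collinearities has a representation over
a field `K` only if `7 = 0` in `K`.
-/

namespace Pool.Agent.Helper21_Gamma7

open Pool.Agent.Helper61_Gamma

universe v

/-! ### polynomials as lists -/

/-- polynomials with integer coefficients -/
abbrev Pl := List ℤ

def padd : Pl → Pl → Pl
  | [], q => q
  | a :: p, [] => a :: p
  | a :: p, b :: q => (a + b) :: padd p q

def pscale (c : ℤ) : Pl → Pl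
  | [] => []
  | a :: p => (c * a) :: pscale c p

def pmul : Pl → Pl → Pl
  | [], _ => []
  | a :: p, q => padd (pscale a q) (0 :: pmul p q)

def pzero : Pl → Bool
  | [] => true
  | a :: p => (a == 0) && pzero p

def psub (p q : Pl) : Pl := padd p (pscale (-1) q)

def peq (p q : Pl) : Bool := pzero (psub p q)

section ev

variable {K : Type v} [Field K] (t : K)

def pev : Pl → K
  | [] => 0
  | a :: p => (a : K) + t * pev p

theorem pev_add : ∀ p q : Pl, pev t (padd p q) = pev t p + pev t q
  | [], q => by simp [padd, pev]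
  | a :: p, [] => by simp [padd, pev]
  | a :: p, b :: q => by
    simp only [padd, pev, pev_add p q, Int.cast_add]
    ring

theorem pev_scale (c : ℤ) : ∀ p : Pl, pev t (pscale c p) = c * pev t p
  | [] => by simp [pscale, pev]
  | a :: p => by
    simp only [pscale, pev, pev_scale c p, Int.cast_mul]
    ring

theorem pev_mul : ∀ p q : Pl, pev t (pmul p q) = pev t p * pev t q
  | [], q => by simp [pmul, pev]
  | a :: p, q => by
    simp only [pmul, pev, pev_add, pev_scale, pev_mul p q, Int.cast_zero]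
    ring

theorem pev_zero : ∀ p : Pl, pzero p = true → pev t p = 0
  | [], _ => rfl
  | a :: p, h => by
    simp only [pzero, Bool.and_eq_true, beq_iff_eq] at h
    simp [pev, h.1, pev_zero p h.2]

theorem pev_sub (p q : Pl) : pev t (psub p q) = pev t p - pev t q := by
  rw [psub, pev_add, pev_scale]
  push_cast
  ring

theorem pev_eq {p q : Pl} (h : peq p q = true) : pev t p = pev t q := by
  have := pev_zero t _ h
  rw [pev_sub, sub_eq_zero] at this
  exact this

end ev

/-! ### vectors -/

/-- vectors of polynomials -/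
abbrev PV := Pl × Pl × Pl

def crossP (a b : PV) : PV :=
  (psub (pmul a.2.1 b.2.2) (pmul a.2.2 b.2.1), psub (pmul a.2.2 b.1) (pmul a.1 b.2.2),
    psub (pmul a.1 b.2.1) (pmul a.2.1 b.1))

def dotP (a b : PV) : Pl := padd (pmul a.1 b.1) (padd (pmul a.2.1 b.2.1) (pmul a.2.2 b.2.2))

def scaleP (g : Pl) (a : PV) : PV := (pmul g a.1, pmul g a.2.1, pmul g a.2.2)

def eqP (a b : PV) : Bool := peq a.1 b.1 && peq a.2.1 b.2.1 && peq a.2.2 b.2.2

section vec

variable {K : Type v} [Field K]

/-- cross product -/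
def cr (a b : Fin 3 → K) : Fin 3 → K :=
  ![a 1 * b 2 - a 2 * b 1, a 2 * b 0 - a 0 * b 2, a 0 * b 1 - a 1 * b 0]

/-- the value of a vector of polynomials -/
def vev (t : K) (u : PV) : Fin 3 → K := ![pev t u.1, pev t u.2.1, pev t u.2.2]

theorem vev_cross (t : K) (a b : PV) : vev t (crossP a b) = cr (vev t a) (vev t b) := by
  funext i
  fin_cases i <;> simp [vev, cr, crossP, pev_sub, pev_mul]

theorem Dt_vev (t : K) (a b c : PV) :
    Dt (vev t a) (vev t b) (vev t c) = pev t (dotP a (crossP b c)) := by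
  simp only [Dt, vev, dotP, crossP, pev_add, pev_mul, pev_sub]
  simp
  ring

theorem vev_scale (t : K) (g : Pl) (a : PV) : vev t (scaleP g a) = pev t g • vev t a := by
  funext i
  fin_cases i <;> simp [vev, scaleP, pev_mul]

theorem vev_eq (t : K) {a b : PV} (h : eqP a b = true) : vev t a = vev t b := by
  simp only [eqP, Bool.and_eq_true] at h
  simp only [vev, pev_eq t h.1.1, pev_eq t h.1.2, pev_eq t h.2]

theorem cr_smul (x y : K) (a b : Fin 3 → K) : cr (x • a) (y • b) = (x * y) • cr a b := by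
  funext i
  fin_cases i <;> simp [cr] <;> ring

theorem Dt_smul3 (x y z : K) (a b c : Fin 3 → K) :
    Dt (x • a) (y • b) (z • c) = x * y * z * Dt a b c := by
  simp only [Dt, Pi.smul_apply, smul_eq_mul]
  ring

/-- The point of intersection of the lines `ab` and `cd`. -/
theorem step_K {x a b c d : Fin 3 → K} (h1 : Dt x a b = 0) (h2 : Dt x c d = 0)
    (h3 : Dt a b c ≠ 0) (h4 : Dt a c d ≠ 0) (h5 : Dt x a c ≠ 0) :
    ∃ μ : K, μ ≠ 0 ∧ x = μ • cr (cr a b) (cr c d) := by
  refine ⟨-Dt x a c / (Dt a b c * Dt a c d), ?_, ?_⟩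
  · exact div_ne_zero (neg_ne_zero.2 h5) (mul_ne_zero h3 h4)
  · have key : ∀ i, x i * (Dt a b c * Dt a c d) = -Dt x a c * cr (cr a b) (cr c d) i := by
      intro i
      have e : x i * (Dt a b c * Dt a c d) - -Dt x a c * cr (cr a b) (cr c d) i =
          (a i * Dt a b c) * Dt x c d + (Dt a c d * c i) * Dt x a b := by
        fin_cases i <;> simp [Dt, cr] <;> ring
      rw [h1, h2] at e
      linear_combination e
    funext i
    rw [Pi.smul_apply, smul_eq_mul, div_mul_eq_mul_div, eq_div_iff (mul_ne_zero h3 h4)]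
    exact key i

end vec

/-! ### points of the plane of order seven -/

/-- vectors of natural numbers, read modulo 7 -/
abbrev T3 := ℕ × ℕ × ℕ

/-- the points of `PG(2,7)` -/
def pt (i : ℕ) : T3 :=
  bif i.blt 49 then (1, i / 7, i % 7) else bif i.blt 56 then (0, 1, i - 49) else (0, 0, 1)

def vec7 (a : T3) : Fin 3 → ZMod 7 := ![(a.1 : ZMod 7), (a.2.1 : ZMod 7), (a.2.2 : ZMod 7)]

/-- the determinant modulo 7 -/
def D7 (a b c : T3) : ℕ :=
  (a.1 * (b.2.1 * c.2.2 + 6 * (b.2.2 * c.2.1)) + 6 * (a.2.1 * (b.1 * c.2.2 + 6 * (b.2.2 * c.1))) +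
    a.2.2 * (b.1 * c.2.1 + 6 * (b.2.1 * c.1))) % 7

instance fact7 : Fact (Nat.Prime 7) := ⟨by norm_num⟩

theorem six7 : (6 : ZMod 7) = -1 := by decide

theorem D7_zero (a b c : T3) : D7 a b c = 0 ↔ Dt (vec7 a) (vec7 b) (vec7 c) = 0 := by
  rw [D7, ← Nat.dvd_iff_mod_eq_zero, ← ZMod.natCast_eq_zero_iff]
  push_cast
  rw [six7, Dt, vec7, vec7, vec7]
  simp only [Matrix.cons_val_zero, Matrix.cons_val_one, Matrix.cons_val]
  rw [← sub_eq_zero (a := _ * _ - _ * _ + _ * _)]
  constructor <;> intro h <;> linear_combination h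

end Pool.Agent.Helper21_Gamma7
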