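import Pool.Agent.Helper21_Gamma7.Data
import Pool.Agent.Helper21_Gamma7.Table

/-!
The finite checks.
-/

namespace Pool.Agent.Helper21_Gamma7

/-- the dot product modulo 7 -/
def dot7 (a b : T3) : ℕ := (a.1 * b.1 + (a.2.1 * b.2.1 + a.2.2 * b.2.2)) % 7

/-- the points on none of the lines -/
def Uof (L : List T3) : List ℕ :=
  (List.range 57).filter fun p => L.all fun c => dot7 c (pt p) != 0

/-- the six lines of a type -/
def repL (d : T3 × T3) : List T3 := [(1, 0, 0), (0, 1, 0), (0, 0, 1), (1, 1, 1), d.1, d.2]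

def has (l : List ℕ) (x : ℕ) : Bool := l.any fun y => y == x

/-- certificates which are correct, use only points of `U`, and avoid any `|U| - 22` points -/
def chkU (U : List ℕ) (cs : List Cert) : Bool :=
  (cs.all fun C => C.ok && C.sup.all fun x => has U x) &&
  (if U.length = 22 then cs.any fun _ => true
   else if U.length = 23 then U.all fun r => cs.any fun C => !(has C.sup r)
   else if U.length = 24 then
    U.all fun r => U.all fun r' => cs.any fun C => !(has C.sup r) && !(has C.sup r')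
   else false)

def chkRep (d : T3 × T3) (cs : List Cert) : Bool := chkU (Uof (repL d)) cs

def chkReps : List (T3 × T3) → List (List Cert) → Bool
  | [], [] => true
  | d :: ds, cs :: css => chkRep d cs && chkReps ds css
  | _, _ => false

def dig (x i : ℕ) : ℕ := x / 16 ^ i % 16

def sc (c : ℕ) (a : T3) : T3 := (c * a.1, c * a.2.1, c * a.2.2)

/-- `d 0 • r1 + d 1 • r2 + d 2 • r3` -/
def comb (d r1 r2 r3 : T3) : T3 :=
  (d.1 * r1.1 + (d.2.1 * r2.1 + d.2.2 * r3.1), d.1 * r1.2.1 + (d.2.1 * r2.2.1 + d.2.2 * r3.2.1),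
    d.1 * r1.2.2 + (d.2.1 * r2.2.2 + d.2.2 * r3.2.2))

def eq7 (a b : T3) : Bool :=
  (a.1 % 7 == b.1 % 7) && (a.2.1 % 7 == b.2.1 % 7) && (a.2.2 % 7 == b.2.2 % 7)

def nz (c : ℕ) : Bool := c % 7 != 0

def chkE (L : List T3) (x : ℕ) : Bool :=
  match L[dig x 0]?, L[dig x 1]?, L[dig x 2]?, L[dig x 3]?, L[dig x 4]?, L[dig x 5]?,
      reps[dig x 11]? with
  | some c0, some c1, some c2, some c3, some c4, some c5, some d =>
    nz (dig x 6) && nz (dig x 7) && nz (dig x 8) && nz (dig x 9) && nz (dig x 10) &&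
    (D7 (sc (dig x 6) c0) (sc (dig x 7) c1) (sc (dig x 8) c2) != 0) &&
    eq7 (comb (1, 1, 1) (sc (dig x 6) c0) (sc (dig x 7) c1) (sc (dig x 8) c2)) c3 &&
    eq7 (comb d.1 (sc (dig x 6) c0) (sc (dig x 7) c1) (sc (dig x 8) c2)) (sc (dig x 9) c4) &&
    eq7 (comb d.2 (sc (dig x 6) c0) (sc (dig x 7) c1) (sc (dig x 8) c2)) (sc (dig x 10) c5)
  | _, _, _, _, _, _, _ => false

def normL (q : T3) (p p' : ℕ) : List T3 :=
  [(1, 0, 0), (0, 1, 0), (0, 0, 1), q, pt p, pt p']

def excl (p : ℕ) : Bool := (p == 0) || (p == 49) || (p == 56) || (p == 8)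

def chkPair (row : List (ℕ × ℕ)) (p p' : ℕ) : Bool :=
  (row.any fun e => (e.1 == p') && chkE (normL (1, 1, 1) p p') e.2) ||
    (Uof (normL (1, 1, 1) p p')).length.blt 22

def chkRow (row : List (ℕ × ℕ)) (p : ℕ) : Bool :=
  excl p || (List.range 57).all fun p' => excl p' || p'.ble p || chkPair row p p'

def chkTab : List (List (ℕ × ℕ)) → ℕ → Bool
  | [], p => p == 57
  | r :: rs, p => chkRow r p && chkTab rs (p + 1)

def full (a : T3) : Bool := nz a.1 && nz a.2.1 && nz a.2.2

def chkQ (q : T3) : Bool :=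
  (List.range 57).all fun p => full (pt p) || (List.range 57).all fun p' =>
    full (pt p') || p'.ble p || eq7 (pt p) (1, 0, 0) || eq7 (pt p) (0, 1, 0) ||
      eq7 (pt p) (0, 0, 1) || eq7 (pt p) q || eq7 (pt p') (1, 0, 0) || eq7 (pt p') (0, 1, 0) ||
      eq7 (pt p') (0, 0, 1) || eq7 (pt p') q || (Uof (normL q p p')).length.blt 22

end Pool.Agent.Helper21_Gamma7
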