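import Pool.Agent.Helper21_Gamma7.Sound

/-!
The certificates for the thirteen types of six lines.
-/

namespace Pool.Agent.Helper21_Gamma7

/-- the fifth and the sixth line of the thirteen types -/
def reps : List (T3 × T3) :=
  [((0, 1, 1), (1, 2, 3)),
   ((0, 1, 1), (1, 2, 4)),
   ((0, 1, 1), (1, 2, 6)),
   ((0, 1, 1), (1, 3, 4)),
   ((0, 1, 2), (1, 2, 2)),
   ((0, 1, 2), (1, 2, 5)),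
   ((0, 1, 2), (1, 3, 3)),
   ((0, 1, 2), (1, 4, 2)),
   ((0, 1, 2), (1, 4, 3)),
   ((0, 1, 3), (1, 3, 3)),
   ((1, 2, 3), (1, 3, 2)),
   ((1, 2, 3), (1, 3, 4)),
   ((1, 2, 3), (1, 3, 6))]

def certs0 : List Cert :=
  [⟨39, 41, 27, 44, none,
    [⟨8, ([1], [], [1]), 0, 2, 1, 3, [1]⟩,
     ⟨34, ([], [1], [1]), 0, 3, 1, 2, [1]⟩,
     ⟨38, ([1], [-1], []), 0, 1, 4, 5, [1]⟩,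
     ⟨20, ([], [2], [1]), 1, 5, 3, 6, [1]⟩,
     ⟨9, ([-2], [2], [1]), 0, 7, 2, 6, [1]⟩,
     ⟨33, ([-2], [], [1]), 1, 8, 2, 4, [1]⟩,
     ⟨11, ([-1], [-1], [1]), 2, 3, 6, 9, [2]⟩],
    [(4, 8, 10, [1])]⟩]

def certs1 : List Cert :=
  [⟨33, 40, 39, 16, none,
    [⟨26, ([-1], [-1], []), 0, 1, 2, 3, [1]⟩,
     ⟨38, ([], [1], [1]), 0, 3, 1, 2, [1]⟩,
     ⟨32, ([1], [2], [1]), 1, 3, 4, 5, [1]⟩,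
     ⟨29, ([2], [2], [1]), 0, 6, 2, 4, [1]⟩,
     ⟨47, ([-2], [-1], []), 0, 1, 5, 7, [1]⟩,
     ⟨27, ([-2], [], [1]), 0, 2, 5, 8, [1]⟩,
     ⟨10, ([-5], [-2], [1]), 3, 8, 6, 9, [1]⟩],
    [(1, 7, 10, [-1])]⟩]

def certs2 : List Cert :=
  [⟨20, 46, 47, 26, none,
    [⟨33, ([-1], [-1], []), 0, 1, 2, 3, [1]⟩,
     ⟨8, ([1], [], [1]), 0, 2, 1, 3, [1]⟩,
     ⟨44, ([], [1], [1]), 0, 3, 1, 2, [1]⟩,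
     ⟨45, ([], [-1], [1]), 1, 6, 4, 5, [1]⟩,
     ⟨15, ([2], [3], [1]), 3, 7, 4, 6, [1]⟩,
     ⟨41, ([-2], [-1], [-3]), 5, 6, 7, 8, [2]⟩,
     ⟨17, ([-3], [-2], [-3]), 3, 5, 4, 9, [1]⟩],
    [(0, 8, 10, [-1])]⟩]

def certs3 : List Cert :=
  [⟨16, 20, 48, 47, none,
    [⟨8, ([1], [], [1]), 0, 2, 1, 3, [1]⟩,
     ⟨41, ([], [1], [1]), 0, 3, 1, 2, [1]⟩,
     ⟨44, ([1], [1], [2]), 2, 3, 4, 5, [1]⟩,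
     ⟨32, ([1], [], [2]), 1, 6, 2, 4, [1]⟩,
     ⟨23, ([1], [2], [4]), 0, 6, 5, 7, [1]⟩,
     ⟨34, ([], [-2], [-3]), 1, 5, 4, 8, [1]⟩,
     ⟨17, ([-1], [-2], []), 0, 1, 2, 8, [1]⟩],
    [(6, 9, 10, [-1])]⟩]

def certs4 : List Cert :=
  [⟨8, 32, 31, 43, none,
    [⟨41, ([1], [], [1]), 0, 2, 1, 3, [1]⟩,
     ⟨29, ([], [1], [1]), 0, 3, 1, 2, [1]⟩,
     ⟨19, ([1], [1], [2]), 2, 3, 4, 5, [1]⟩,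
     ⟨22, ([1], [2], [2]), 0, 3, 1, 6, [1]⟩,
     ⟨16, ([1], [-2], []), 0, 1, 4, 7, [1]⟩,
     ⟨13, ([-1], [-1], [-3]), 2, 3, 5, 8, [1]⟩,
     ⟨11, ([-4], [-1], [-3]), 0, 9, 3, 8, [2]⟩],
    [(2, 7, 10, [1])]⟩]

def certs5 : List Cert :=
  [⟨39, 11, 38, 26, none,
    [⟨41, ([1], [], [1]), 0, 2, 1, 3, [1]⟩,
     ⟨16, ([], [1], [1]), 0, 3, 1, 2, [1]⟩,
     ⟨32, ([-1], [-1], []), 0, 1, 2, 3, [1]⟩,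
     ⟨40, ([-1], [], [1]), 0, 2, 5, 6, [1]⟩,
     ⟨22, ([1], [-2], [-1]), 1, 7, 4, 5, [1]⟩,
     ⟨13, ([1], [-2], [-2]), 2, 8, 3, 5, [1]⟩,
     ⟨47, ([-1], [-2], [-3]), 3, 7, 4, 5, [1]⟩],
    [(6, 9, 10, [-1])]⟩,
   ⟨31, 43, 44, 15, none,
    [⟨13, ([-1], [-1], []), 0, 1, 2, 3, [1]⟩,
     ⟨8, ([1], [], [1]), 0, 2, 1, 3, [1]⟩,
     ⟨47, ([], [1], [1]), 0, 3, 1, 2, [1]⟩,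
     ⟨25, ([1], [-1], []), 0, 1, 5, 6, [1]⟩,
     ⟨48, ([], [2], [1]), 1, 6, 3, 7, [1]⟩,
     ⟨9, ([-3], [-2], [-1]), 0, 8, 4, 5, [1]⟩,
     ⟨41, ([-2], [], [1]), 2, 5, 4, 8, [1]⟩],
    [(7, 9, 10, [-1])]⟩,
   ⟨15, 25, 16, 43, none,
    [⟨19, ([1], [], [1]), 0, 2, 1, 3, [1]⟩,
     ⟨38, ([-1], [-1], []), 0, 1, 2, 3, [1]⟩,
     ⟨34, ([], [1], [-1]), 1, 2, 4, 5, [1]⟩,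
     ⟨8, ([-2], [-1], [-1]), 0, 3, 4, 6, [1]⟩,
     ⟨40, ([2], [1], [-1]), 0, 6, 2, 7, [1]⟩,
     ⟨17, ([-1], [], [2]), 2, 4, 3, 8, [1]⟩,
     ⟨26, ([-3], [-2], [-4]), 3, 6, 7, 9, [2]⟩],
    [(4, 8, 10, [-1])]⟩]

def certs6 : List Cert :=
  [⟨19, 26, 41, 16, none,
    [⟨15, ([], [1], [1]), 0, 3, 1, 2, [1]⟩,
     ⟨29, ([1], [], [1]), 0, 2, 1, 3, [1]⟩,
     ⟨22, ([-1], [-1], [-2]), 2, 3, 4, 5, [1]⟩,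
     ⟨47, ([-1], [-1], []), 0, 1, 3, 6, [1]⟩,
     ⟨9, ([-3], [-1], [-2]), 0, 6, 5, 7, [1]⟩,
     ⟨31, ([3], [5], [2]), 1, 8, 4, 7, [1]⟩,
     ⟨40, ([1], [2], []), 1, 7, 6, 9, [4]⟩],
    [(4, 8, 10, [-1])]⟩]

def certs7 : List Cert :=
  [⟨16, 11, 17, 27, none,
    [⟨19, ([1], [], [1]), 0, 2, 1, 3, [1]⟩,
     ⟨43, ([-1], [-1], []), 0, 1, 2, 3, [1]⟩,
     ⟨31, ([2], [1], [1]), 0, 3, 4, 5, [1]⟩,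
     ⟨40, ([-2], [-2], [-1]), 1, 6, 2, 5, [1]⟩,
     ⟨48, ([], [-2], [-1]), 0, 7, 1, 2, [1]⟩,
     ⟨13, ([-3], [-1], [-2]), 3, 8, 4, 5, [1]⟩,
     ⟨26, ([-5], [-2], [-4]), 0, 9, 4, 7, [1]⟩],
    [(6, 8, 10, [1])]⟩,
   ⟨38, 43, 37, 9, none,
    [⟨16, ([-1], [-1], []), 0, 1, 2, 3, [1]⟩,
     ⟨39, ([1], [], [1]), 0, 2, 1, 3, [1]⟩,
     ⟨13, ([], [-1], [1]), 1, 2, 4, 5, [1]⟩,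
     ⟨29, ([-2], [-1], [-1]), 0, 3, 4, 5, [1]⟩,
     ⟨22, ([-2], [1], [-1]), 0, 6, 1, 7, [1]⟩,
     ⟨45, ([-6], [-3], [-5]), 2, 7, 3, 8, [1]⟩,
     ⟨44, ([6], [-1], [5]), 1, 9, 5, 8, [1]⟩],
    [(2, 3, 10, [-1])]⟩,
   ⟨41, 34, 38, 9, none,
    [⟨27, ([-1], [-1], []), 0, 1, 2, 3, [1]⟩,
     ⟨40, ([1], [], [1]), 0, 2, 1, 3, [1]⟩,
     ⟨17, ([-2], [-1], [-1]), 0, 3, 4, 5, [1]⟩,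
     ⟨39, ([-2], [], [-1]), 0, 2, 1, 6, [1]⟩,
     ⟨45, ([4], [2], [1]), 2, 6, 4, 7, [1]⟩,
     ⟨19, ([], [2], [3]), 1, 2, 3, 8, [1]⟩,
     ⟨15, ([1], [2], [1]), 0, 8, 3, 5, [1]⟩],
    [(6, 9, 10, [1])]⟩]

def certs8 : List Cert :=
  [⟨11, 17, 45, 16, none,
    [⟨15, ([1], [], [1]), 0, 2, 1, 3, [1]⟩,
     ⟨38, ([], [1], [1]), 0, 3, 1, 2, [1]⟩,
     ⟨25, ([1], [1], [2]), 2, 3, 4, 5, [1]⟩,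
     ⟨48, ([-1], [1], []), 0, 1, 5, 6, [1]⟩,
     ⟨41, ([1], [], [2]), 0, 2, 1, 6, [1]⟩,
     ⟨47, ([1], [-1], [3]), 2, 7, 3, 8, [1]⟩,
     ⟨32, ([2], [3], [6]), 0, 6, 1, 9, [1]⟩],
    [(3, 7, 10, [1])]⟩,
   ⟨44, 27, 37, 31, none,
    [⟨16, ([1], [], [1]), 0, 2, 1, 3, [1]⟩,
     ⟨19, ([-1], [-1], []), 0, 1, 2, 3, [1]⟩,
     ⟨15, ([], [1], [-1]), 1, 2, 4, 5, [1]⟩,
     ⟨13, ([1], [1], [-1]), 0, 6, 3, 5, [1]⟩,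
     ⟨39, ([-1], [1], [-3]), 3, 6, 4, 7, [1]⟩,
     ⟨17, ([-2], [1], [-3]), 0, 8, 5, 6, [1]⟩,
     ⟨8, ([-1], [-3], [-3]), 0, 3, 1, 8, [1]⟩],
    [(2, 9, 10, [1])]⟩,
   ⟨11, 37, 40, 25, none,
    [⟨31, ([1], [], [1]), 0, 2, 1, 3, [1]⟩,
     ⟨39, ([], [1], [1]), 0, 3, 1, 2, [1]⟩,
     ⟨47, ([1], [-1], []), 0, 1, 4, 5, [1]⟩,
     ⟨19, ([-1], [1], [-1]), 2, 6, 3, 4, [1]⟩,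
     ⟨44, ([-1], [-1], [1]), 0, 7, 2, 3, [1]⟩,
     ⟨22, ([1], [], [-2]), 2, 4, 5, 8, [1]⟩,
     ⟨48, ([-1], [4], [2]), 1, 9, 5, 7, [1]⟩],
    [(6, 8, 10, [-1])]⟩]

def certs9 : List Cert :=
  [⟨22, 32, 10, 43, none,
    [⟨41, ([1], [], [1]), 0, 2, 1, 3, [1]⟩,
     ⟨15, ([], [1], [1]), 0, 3, 1, 2, [1]⟩,
     ⟨26, ([1], [1], [2]), 2, 3, 4, 5, [1]⟩,
     ⟨23, ([2], [1], [2]), 0, 6, 3, 4, [1]⟩,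
     ⟨20, ([2], [1], [4]), 1, 6, 2, 7, [1]⟩,
     ⟨19, ([-2], [3], []), 0, 1, 5, 8, [1]⟩,
     ⟨34, ([-6], [1], [-4]), 4, 8, 7, 9, [2]⟩],
    [(2, 3, 10, [1])]⟩]

def certs10 : List Cert :=
  [⟨39, 25, 15, 37, none,
    [⟨31, ([1], [], [1]), 0, 2, 1, 3, [1]⟩,
     ⟨38, ([], [1], [1]), 0, 3, 1, 2, [1]⟩,
     ⟨10, ([1], [1], [2]), 2, 3, 4, 5, [1]⟩,
     ⟨19, ([2], [1], [2]), 0, 6, 3, 4, [1]⟩,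
     ⟨40, ([1], [2], [2]), 0, 5, 1, 6, [1]⟩,
     ⟨34, ([-2], [-4], [-5]), 2, 8, 5, 7, [1]⟩,
     ⟨11, ([4], [6], [7]), 3, 9, 4, 8, [1]⟩],
    [(0, 1, 10, [1])]⟩,
   ⟨48, 44, 19, 22, none,
    [⟨39, ([1], [], [1]), 0, 2, 1, 3, [1]⟩,
     ⟨45, ([-1], [-1], []), 0, 1, 2, 3, [1]⟩,
     ⟨33, ([2], [1], [1]), 0, 3, 4, 5, [1]⟩,
     ⟨27, ([], [-1], [1]), 1, 2, 4, 6, [1]⟩,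
     ⟨26, ([-2], [-1], [-3]), 2, 6, 3, 7, [1]⟩,
     ⟨20, ([-2], [3], [-3]), 0, 7, 1, 8, [1]⟩,
     ⟨9, ([-3], [-3], [-2]), 2, 5, 4, 9, [1]⟩],
    [(0, 8, 10, [-1])]⟩,
   ⟨48, 16, 26, 46, none,
    [⟨31, ([1], [], [1]), 0, 2, 1, 3, [1]⟩,
     ⟨8, ([-1], [-1], []), 0, 1, 2, 3, [1]⟩,
     ⟨44, ([2], [1], [1]), 0, 3, 4, 5, [1]⟩,
     ⟨9, ([2], [], [1]), 0, 2, 1, 6, [1]⟩,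
     ⟨40, ([-1], [1], []), 1, 5, 3, 7, [1]⟩,
     ⟨11, ([-3], [1], [-2]), 4, 8, 5, 7, [1]⟩,
     ⟨29, ([7], [-1], [2]), 0, 9, 6, 8, [1]⟩],
    [(1, 2, 10, [1])]⟩,
   ⟨37, 46, 20, 48, none,
    [⟨33, ([], [1], [1]), 0, 3, 1, 2, [1]⟩,
     ⟨45, ([1], [], [1]), 0, 2, 1, 3, [1]⟩,
     ⟨8, ([-1], [1], []), 0, 1, 4, 5, [1]⟩,
     ⟨27, ([-1], [-1], [-2]), 2, 3, 4, 5, [1]⟩,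
     ⟨16, ([1], [3], [2]), 1, 7, 3, 6, [1]⟩,
     ⟨34, ([-3], [-3], [-4]), 2, 7, 5, 8, [1]⟩,
     ⟨15, ([3], [2], [4]), 0, 7, 1, 9, [2]⟩],
    [(2, 8, 10, [-1])]⟩,
   ⟨22, 27, 15, 45, none,
    [⟨8, ([1], [], [1]), 0, 2, 1, 3, [1]⟩,
     ⟨26, ([-1], [-1], []), 0, 1, 2, 3, [1]⟩,
     ⟨37, ([], [1], [-1]), 1, 2, 4, 5, [1]⟩,
     ⟨29, ([-1], [], [-2]), 0, 2, 3, 6, [1]⟩,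
     ⟨9, ([-1], [-2], [-2]), 0, 3, 1, 7, [1]⟩,
     ⟨16, ([-1], [2], [-6]), 5, 7, 6, 8, [1]⟩,
     ⟨10, ([], [-1], [3]), 0, 9, 1, 6, [2]⟩],
    [(4, 8, 10, [-1])]⟩,
   ⟨33, 38, 45, 34, none,
    [⟨16, ([-1], [-1], []), 0, 1, 2, 3, [1]⟩,
     ⟨31, ([], [1], [1]), 0, 3, 1, 2, [1]⟩,
     ⟨27, ([1], [], [-1]), 0, 2, 4, 5, [1]⟩,
     ⟨29, ([1], [-1], [-1]), 0, 5, 1, 6, [1]⟩,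
     ⟨20, ([-1], [1], [3]), 2, 7, 3, 6, [1]⟩,
     ⟨11, ([1], [2], []), 0, 1, 5, 8, [1]⟩,
     ⟨19, ([3], [5], [3]), 1, 3, 4, 8, [1]⟩],
    [(6, 9, 10, [1])]⟩,
   ⟨38, 48, 39, 31, none,
    [⟨15, ([-1], [-1], []), 0, 1, 2, 3, [1]⟩,
     ⟨10, ([], [1], [1]), 0, 3, 1, 2, [1]⟩,
     ⟨37, ([1], [], [-1]), 0, 2, 4, 5, [1]⟩,
     ⟨25, ([-2], [-1], []), 1, 4, 3, 6, [1]⟩,
     ⟨40, ([2], [], [-1]), 2, 6, 5, 7, [1]⟩,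
     ⟨46, ([-4], [-2], [1]), 2, 7, 4, 8, [1]⟩,
     ⟨22, ([3], [-1], [-3]), 1, 6, 3, 8, [1]⟩],
    [(0, 9, 10, [1])]⟩,
   ⟨20, 19, 44, 33, none,
    [⟨15, ([-1], [-1], []), 0, 1, 2, 3, [1]⟩,
     ⟨26, ([1], [], [1]), 0, 2, 1, 3, [1]⟩,
     ⟨11, ([], [-1], [1]), 1, 2, 4, 5, [1]⟩,
     ⟨40, ([1], [-1], [1]), 0, 6, 1, 3, [1]⟩,
     ⟨38, ([-1], [], [-2]), 2, 5, 3, 6, [1]⟩,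
     ⟨46, ([-3], [-1], [-1]), 0, 3, 4, 7, [1]⟩,
     ⟨25, ([-3], [3], [-5]), 2, 7, 6, 9, [1]⟩],
    [(4, 8, 10, [-1])]⟩,
   ⟨16, 34, 31, 44, some 25,
    [⟨29, ([], [1, -1], [1]), 1, 2, 3, 4, [1]⟩,
     ⟨39, ([1], [1, -1], [1]), 0, 5, 1, 3, [1]⟩,
     ⟨46, ([-1, 2], [], [0, 1]), 0, 2, 4, 6, [1]⟩,
     ⟨37, ([-1], [0, -1], [0, -1]), 0, 3, 2, 4, [1]⟩,
     ⟨45, ([1], [0, 0, 1], []), 0, 1, 5, 8, [1]⟩,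
     ⟨8, ([1, -2], [1, -2], [2, -3]), 2, 3, 7, 8, [0, 1]⟩],
    [(6, 9, 10, [-7, 9, -10]), (3, 7, 9, [30, -21, -10])]⟩,
   ⟨33, 22, 39, 29, some 37,
    [⟨34, ([], [1], [1]), 0, 3, 1, 2, [1]⟩,
     ⟨8, ([1], [], [1]), 0, 2, 1, 3, [1]⟩,
     ⟨26, ([0, -1], [0, -1], [1, -1]), 2, 3, 4, 6, [1]⟩,
     ⟨38, ([-1], [0, -1], [-1, -1]), 2, 4, 5, 6, [1]⟩,
     ⟨27, ([0, -1], [], [1, -1]), 0, 2, 1, 7, [1]⟩,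
     ⟨20, ([0, 0, 1], [-1, 2], [-1, 1, 1]), 3, 4, 5, 9, [1]⟩],
    [(7, 8, 10, [-1, 3]), (3, 8, 9, [8, 4, -2, -3])]⟩]

def certs11 : List Cert :=
  [⟨48, 27, 37, 39, none,
    [⟨10, ([], [1], [1]), 0, 3, 1, 2, [1]⟩,
     ⟨33, ([1], [], [1]), 0, 2, 1, 3, [1]⟩,
     ⟨20, ([-1], [1], []), 0, 1, 4, 5, [1]⟩,
     ⟨45, ([-1], [1], [-1]), 1, 3, 2, 6, [1]⟩,
     ⟨43, ([3], [-1], [1]), 0, 7, 3, 6, [1]⟩,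
     ⟨34, ([-3], [2], []), 0, 1, 4, 8, [1]⟩,
     ⟨31, ([1], [2], [4]), 4, 7, 5, 9, [1]⟩],
    [(2, 8, 10, [1])]⟩,
   ⟨40, 26, 44, 11, none,
    [⟨19, ([-1], [-1], []), 0, 1, 2, 3, [1]⟩,
     ⟨20, ([], [1], [1]), 0, 3, 1, 2, [1]⟩,
     ⟨15, ([1], [2], [1]), 1, 3, 4, 5, [1]⟩,
     ⟨33, ([-1], [-2], []), 0, 1, 2, 6, [1]⟩,
     ⟨16, ([2], [3], [1]), 3, 7, 4, 5, [1]⟩,
     ⟨23, ([2], [3], [-1]), 2, 8, 5, 7, [1]⟩,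
     ⟨29, ([6], [7], [3]), 1, 8, 3, 9, [1]⟩],
    [(0, 2, 10, [-1])]⟩,
   ⟨25, 43, 9, 23, none,
    [⟨41, ([1], [], [1]), 0, 2, 1, 3, [1]⟩,
     ⟨37, ([-1], [-1], []), 0, 1, 2, 3, [1]⟩,
     ⟨39, ([], [1], [-1]), 1, 2, 4, 5, [1]⟩,
     ⟨31, ([-1], [-2], []), 1, 5, 3, 6, [1]⟩,
     ⟨26, ([1], [2], [2]), 0, 3, 2, 7, [1]⟩,
     ⟨15, ([-3], [-2], [-4]), 4, 8, 6, 7, [1]⟩,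
     ⟨8, ([-3], [-5], [-4]), 1, 9, 5, 8, [2]⟩],
    [(4, 7, 10, [1])]⟩,
   ⟨40, 10, 41, 8, none,
    [⟨16, ([], [1], [1]), 0, 3, 1, 2, [1]⟩,
     ⟨44, ([-1], [-1], []), 0, 1, 2, 3, [1]⟩,
     ⟨9, ([-1], [-2], [-1]), 1, 3, 4, 5, [1]⟩,
     ⟨25, ([1], [2], []), 0, 1, 2, 6, [1]⟩,
     ⟨34, ([1], [4], [2]), 0, 6, 4, 7, [1]⟩,
     ⟨48, ([-1], [-4], [-4]), 0, 4, 2, 8, [1]⟩,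
     ⟨39, ([-1], [-7], [-4]), 1, 9, 5, 8, [2]⟩],
    [(0, 2, 10, [1])]⟩,
   ⟨48, 27, 15, 26, none,
    [⟨25, ([1], [], [1]), 0, 2, 1, 3, [1]⟩,
     ⟨41, ([-1], [-1], []), 0, 1, 2, 3, [1]⟩,
     ⟨9, ([2], [1], [1]), 0, 3, 4, 5, [1]⟩,
     ⟨34, ([2], [1], []), 0, 5, 2, 6, [1]⟩,
     ⟨10, ([], [1], [2]), 1, 2, 3, 7, [1]⟩,
     ⟨11, ([-2], [-2], [-3]), 2, 5, 6, 8, [1]⟩,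
     ⟨29, ([-6], [-2], [-3]), 0, 9, 1, 6, [1]⟩],
    [(4, 8, 10, [1])]⟩,
   ⟨11, 31, 16, 19, none,
    [⟨43, ([1], [], [1]), 0, 2, 1, 3, [1]⟩,
     ⟨27, ([], [1], [1]), 0, 3, 1, 2, [1]⟩,
     ⟨40, ([1], [-1], []), 0, 1, 4, 5, [1]⟩,
     ⟨33, ([2], [], [1]), 0, 4, 3, 6, [1]⟩,
     ⟨8, ([-2], [2], [1]), 2, 6, 5, 7, [1]⟩,
     ⟨29, ([-6], [2], [-3]), 1, 7, 4, 8, [1]⟩,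
     ⟨44, ([1], [3], [3]), 3, 5, 6, 9, [1]⟩],
    [(1, 8, 10, [1])]⟩,
   ⟨19, 25, 40, 27, none,
    [⟨26, ([1], [], [1]), 0, 2, 1, 3, [1]⟩,
     ⟨44, ([], [1], [1]), 0, 3, 1, 2, [1]⟩,
     ⟨43, ([-1], [-1], []), 0, 1, 2, 3, [1]⟩,
     ⟨10, ([], [-1], [1]), 2, 5, 4, 6, [1]⟩,
     ⟨48, ([-2], [-1], [1]), 0, 7, 5, 6, [1]⟩,
     ⟨20, ([-2], [-3], [-5]), 3, 8, 4, 5, [1]⟩,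
     ⟨31, ([3], [1], []), 0, 1, 4, 8, [1]⟩],
    [(2, 9, 10, [1])]⟩,
   ⟨34, 40, 37, 27, none,
    [⟨41, ([], [1], [1]), 0, 3, 1, 2, [1]⟩,
     ⟨15, ([-1], [-1], []), 0, 1, 2, 3, [1]⟩,
     ⟨11, ([-1], [], [1]), 0, 2, 4, 5, [1]⟩,
     ⟨20, ([-1], [1], [1]), 0, 3, 1, 6, [1]⟩,
     ⟨19, ([3], [1], [-1]), 3, 6, 5, 7, [1]⟩,
     ⟨26, ([-3], [-2], [1]), 1, 8, 4, 6, [1]⟩,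
     ⟨43, ([3], [1], [3]), 1, 3, 2, 8, [1]⟩],
    [(0, 9, 10, [-1])]⟩]

def certs12 : List Cert :=
  [⟨41, 15, 10, 20, none,
    [⟨16, ([1], [], [1]), 0, 2, 1, 3, [1]⟩,
     ⟨27, ([], [1], [1]), 0, 3, 1, 2, [1]⟩,
     ⟨46, ([1], [1], [2]), 2, 3, 4, 5, [1]⟩,
     ⟨19, ([2], [1], [2]), 0, 6, 1, 3, [1]⟩,
     ⟨48, ([2], [1], [1]), 2, 7, 3, 5, [1]⟩,
     ⟨40, ([1], [-1], [2]), 1, 6, 4, 8, [1]⟩,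
     ⟨44, ([4], [3], [5]), 5, 7, 6, 8, [1]⟩],
    [(2, 9, 10, [1])]⟩,
   ⟨9, 27, 16, 26, none,
    [⟨23, ([1], [], [1]), 0, 2, 1, 3, [1]⟩,
     ⟨29, ([-1], [-1], []), 0, 1, 2, 3, [1]⟩,
     ⟨31, ([], [1], [1]), 0, 3, 1, 2, [1]⟩,
     ⟨39, ([-1], [-1], [-2]), 3, 5, 4, 6, [1]⟩,
     ⟨33, ([-1], [-3], [-2]), 1, 7, 5, 6, [1]⟩,
     ⟨43, ([-1], [-3], [-6]), 0, 7, 2, 8, [1]⟩,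
     ⟨25, ([-1], [2], [-1]), 3, 4, 6, 9, [1]⟩],
    [(0, 8, 10, [1])]⟩,
   ⟨43, 38, 25, 8, none,
    [⟨19, ([1], [], [1]), 0, 2, 1, 3, [1]⟩,
     ⟨15, ([], [1], [1]), 0, 3, 1, 2, [1]⟩,
     ⟨16, ([1], [-1], []), 0, 1, 4, 5, [1]⟩,
     ⟨48, ([], [2], [1]), 1, 5, 3, 6, [1]⟩,
     ⟨45, ([-2], [2], [1]), 0, 7, 2, 6, [1]⟩,
     ⟨22, ([1], [-2], [-2]), 3, 5, 4, 8, [1]⟩,
     ⟨33, ([2], [-10], [-7]), 3, 8, 7, 9, [1]⟩],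
    [(0, 1, 10, [-1])]⟩,
   ⟨44, 40, 41, 22, none,
    [⟨10, ([-1], [-1], []), 0, 1, 2, 3, [1]⟩,
     ⟨31, ([1], [], [1]), 0, 2, 1, 3, [1]⟩,
     ⟨38, ([], [-1], [1]), 1, 2, 4, 5, [1]⟩,
     ⟨20, ([1], [-1], [1]), 0, 6, 1, 5, [1]⟩,
     ⟨46, ([-1], [-3], [1]), 3, 6, 4, 7, [1]⟩,
     ⟨45, ([2], [3], [-1]), 0, 8, 4, 6, [1]⟩,
     ⟨29, ([-1], [-3], []), 0, 4, 2, 8, [1]⟩],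
    [(7, 9, 10, [-1])]⟩,
   ⟨31, 10, 9, 19, none,
    [⟨45, ([-1], [-1], []), 0, 1, 2, 3, [1]⟩,
     ⟨48, ([1], [], [1]), 0, 2, 1, 3, [1]⟩,
     ⟨43, ([-2], [-1], [-1]), 0, 3, 4, 5, [1]⟩,
     ⟨26, ([-2], [], [-1]), 1, 6, 2, 5, [1]⟩,
     ⟨39, ([2], [1], [2]), 2, 6, 3, 5, [1]⟩,
     ⟨15, ([5], [1], [2]), 0, 8, 4, 7, [1]⟩,
     ⟨8, ([], [-1], [2]), 1, 2, 4, 8, [1]⟩],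
    [(6, 9, 10, [1])]⟩,
   ⟨33, 27, 38, 41, none,
    [⟨39, ([-1], [-1], []), 0, 1, 2, 3, [1]⟩,
     ⟨9, ([], [1], [1]), 0, 3, 1, 2, [1]⟩,
     ⟨20, ([1], [2], [1]), 1, 3, 4, 5, [1]⟩,
     ⟨43, ([1], [], [-1]), 0, 2, 5, 6, [1]⟩,
     ⟨23, ([-3], [-2], [-1]), 0, 6, 3, 7, [1]⟩,
     ⟨40, ([-1], [-1], [1]), 1, 7, 3, 4, [1]⟩,
     ⟨26, ([-3], [1], [-1]), 0, 9, 1, 8, [1]⟩],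
    [(2, 6, 10, [1])]⟩,
   ⟨48, 19, 9, 33, none,
    [⟨22, ([], [1], [1]), 0, 3, 1, 2, [1]⟩,
     ⟨26, ([1], [], [1]), 0, 2, 1, 3, [1]⟩,
     ⟨25, ([-1], [-1], [-2]), 2, 3, 4, 5, [1]⟩,
     ⟨31, ([-1], [], [-2]), 1, 6, 2, 5, [1]⟩,
     ⟨40, ([-1], [1], [-1]), 1, 3, 4, 7, [1]⟩,
     ⟨29, ([-3], [-1], [-5]), 3, 7, 6, 8, [1]⟩,
     ⟨15, ([-1], [1], [2]), 0, 6, 2, 8, [1]⟩],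
    [(4, 9, 10, [1])]⟩,
   ⟨20, 9, 15, 23, none,
    [⟨16, ([1], [], [1]), 0, 2, 1, 3, [1]⟩,
     ⟨46, ([], [1], [1]), 0, 3, 1, 2, [1]⟩,
     ⟨31, ([1], [1], [2]), 2, 3, 4, 5, [1]⟩,
     ⟨39, ([-1], [-1], []), 0, 1, 2, 3, [1]⟩,
     ⟨26, ([-1], [1], [-2]), 1, 6, 4, 7, [1]⟩,
     ⟨44, ([-2], [1], [-2]), 0, 8, 1, 4, [1]⟩,
     ⟨22, ([4], [1], [2]), 0, 6, 7, 9, [2]⟩],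
    [(3, 8, 10, [-1])]⟩]

def certs : List (List Cert) :=
  [certs0, certs1, certs2, certs3, certs4, certs5, certs6, certs7, certs8, certs9, certs10, certs11, certs12]

end Pool.Agent.Helper21_Gamma7
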