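import Pool.Agent.Helper61_Gamma.Low

/-!
The Dowling geometry of the cyclic group of order six, over `GF(7)` and over `GF(13)`.
-/

namespace Pool.Agent.Helper21_Gamma7

open Set Pool.Agent.Helper61_Gamma

universe u v

/-- integer determinant -/
def DtZ (a b c : Fin 3 → ℤ) : ℤ :=
  a 0 * (b 1 * c 2 - b 2 * c 1) - a 1 * (b 0 * c 2 - b 2 * c 0) + a 2 * (b 0 * c 1 - b 1 * c 0)

/-- the 21 vectors for a list of six group elements -/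
def tbl (g : Fin 6 → ℤ) : Fin 21 → Fin 3 → ℤ :=
  ![![1, 0, 0], ![0, 1, 0], ![0, 0, 1],
    ![1, -g 0, 0], ![1, -g 1, 0], ![1, -g 2, 0], ![1, -g 3, 0], ![1, -g 4, 0], ![1, -g 5, 0],
    ![0, 1, -g 0], ![0, 1, -g 1], ![0, 1, -g 2], ![0, 1, -g 3], ![0, 1, -g 4], ![0, 1, -g 5],
    ![-g 0, 0, 1], ![-g 1, 0, 1], ![-g 2, 0, 1], ![-g 3, 0, 1], ![-g 4, 0, 1], ![-g 5, 0, 1]]

theorem tbl_key : ∀ s t r : Fin 21,
    ((7 : ℤ) ∣ DtZ (tbl ![1, 3, 2, 6, 4, 5] s) (tbl ![1, 3, 2, 6, 4, 5] t)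
      (tbl ![1, 3, 2, 6, 4, 5] r)) ↔
    ((13 : ℤ) ∣ DtZ (tbl ![1, 4, 3, 12, 9, 10] s) (tbl ![1, 4, 3, 12, 9, 10] t)
      (tbl ![1, 4, 3, 12, 9, 10] r)) := by
  decide +kernel

theorem tbl_simple : ∀ s t : Fin 21, s ≠ t → ∃ r : Fin 21,
    ¬ ((7 : ℤ) ∣ DtZ (tbl ![1, 3, 2, 6, 4, 5] s) (tbl ![1, 3, 2, 6, 4, 5] t)
      (tbl ![1, 3, 2, 6, 4, 5] r)) := by
  decide +kernel

/-- the vectors of a table over a field -/
def vecOf (K : Type v) [Field K] (T : Fin 21 → Fin 3 → ℤ) : ULift.{u} (Fin 21) → Fin 3 → K :=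
  fun s i => ((T s.down i : ℤ) : K)

theorem Dt_vecOf (K : Type v) [Field K] (T : Fin 21 → Fin 3 → ℤ) (s t r : ULift.{u} (Fin 21)) :
    Dt (vecOf K T s) (vecOf K T t) (vecOf K T r) =
      ((DtZ (T s.down) (T t.down) (T r.down) : ℤ) : K) := by
  simp only [Dt, DtZ, vecOf]
  push_cast
  ring

theorem Dt_vecOf_eq_zero (K : Type v) [Field K] (p : ℕ) [CharP K p] (T : Fin 21 → Fin 3 → ℤ)
    (s t r : ULift.{u} (Fin 21)) :
    Dt (vecOf K T s) (vecOf K T t) (vecOf K T r) = 0 ↔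
      (p : ℤ) ∣ DtZ (T s.down) (T t.down) (T r.down) := by
  rw [Dt_vecOf, CharP.intCast_eq_zero_iff K p]

/-- the example -/
noncomputable def exM : Matroid (ULift.{u} (Fin 21)) :=
  haveI : Fact (Nat.Prime 7) := ⟨by norm_num⟩
  vecMatroid (vecOf (ZMod 7) (tbl ![1, 3, 2, 6, 4, 5]))

theorem exM_spec : IsSimple exM.{u} ∧ exM.{u}.eRank = 3 ∧ exM.{u}.E.encard = 21 ∧
    (haveI : Fact (Nat.Prime 7) := ⟨by norm_num⟩; RepOver (ZMod 7) exM.{u}) ∧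
    (∃ (K : Type v) (_ : Field K), CharP K 13 ∧ RepOver K exM.{u}) := by
  have h7 : Fact (Nat.Prime 7) := ⟨by norm_num⟩
  have h13 : Fact (Nat.Prime 13) := ⟨by norm_num⟩
  have hsimp : ∀ s t : ULift.{u} (Fin 21), s ≠ t →
      ∃ r, Dt (vecOf (ZMod 7) (tbl ![1, 3, 2, 6, 4, 5]) s)
      (vecOf (ZMod 7) (tbl ![1, 3, 2, 6, 4, 5]) t)
      (vecOf (ZMod 7) (tbl ![1, 3, 2, 6, 4, 5]) r) ≠ 0 := by
    intro s t hst
    obtain ⟨r, hr⟩ := tbl_simple s.down t.down (fun h => hst (ULift.down_injective h))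
    refine ⟨⟨r⟩, ?_⟩
    rw [Ne, Dt_vecOf_eq_zero (ZMod 7) 7]
    exact hr
  have hv : ∃ s t r : ULift.{u} (Fin 21), Dt (vecOf (ZMod 7) (tbl ![1, 3, 2, 6, 4, 5]) s)
      (vecOf (ZMod 7) (tbl ![1, 3, 2, 6, 4, 5]) t)
      (vecOf (ZMod 7) (tbl ![1, 3, 2, 6, 4, 5]) r) ≠ 0 := by
    obtain ⟨r, hr⟩ := hsimp ⟨0⟩ ⟨1⟩ (by
      intro h
      have := congrArg ULift.down h
      simp at this)
    exact ⟨_, _, r, hr⟩
  refine ⟨vec_simple hsimp, vec_rank hv, ?_, vec_rep _, ?_⟩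
  · rw [exM, vec_E, encard_univ]
    simp
  · have hc : CharP (ULift.{v} (ZMod 13)) 13 := inferInstance
    refine ⟨ULift.{v} (ZMod 13), inferInstance, hc, ?_⟩
    apply vec_transfer (v' := vecOf (ULift.{v} (ZMod 13)) (tbl ![1, 4, 3, 12, 9, 10])) _ hv
    intro s t r
    rw [Dt_vecOf_eq_zero (ZMod 7) 7, Dt_vecOf_eq_zero (ULift.{v} (ZMod 13)) 13]
    exact tbl_key _ _ _

end Pool.Agent.Helper21_Gamma7
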