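import Pool.Agent.Helper21_Gamma7.Check

/-!
The finite checks, run by the kernel.
-/

namespace Pool.Agent.Helper21_Gamma7

theorem kern_reps : chkReps reps certs = true := by decide +kernel

theorem kern_tab : chkTab rows 0 = true := by decide +kernel

theorem kern_q1 : chkQ (0, 1, 1) = true := by decide +kernel

theorem kern_q2 : chkQ (1, 0, 1) = true := by decide +kernel

theorem kern_q3 : chkQ (1, 1, 0) = true := by decide +kernel

/-- six lines through a point -/
def chkConc : Bool :=
  (List.range 7).all fun a => (List.range 7).all fun b => (List.range 7).all fun c =>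
    (a == 0) || (b == 0) || (c == 0) || (a == b) || (a == c) || (b == c) ||
      (Uof [(1, 0, 0), (0, 1, 0), (1, a, 0), (1, b, 0), (1, c, 0)]).length.blt 22

theorem kern_conc : chkConc = true := by decide +kernel

end Pool.Agent.Helper21_Gamma7
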