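import Pool.Agent.Helper21_Gamma7.Six

/-!
Six lines in general.
-/

namespace Pool.Agent.Helper21_Gamma7

open Pool.Agent.Helper61_Gamma Matrix

universe v

variable {K : Type v} [Field K]

theorem Dt_vecMul (M : Matrix (Fin 3) (Fin 3) (ZMod 7)) (a b c : V7) :
    Dt (a ᵥ* M) (b ᵥ* M) (c ᵥ* M) = M.det * Dt a b c := by
  rw [← mulVec_transpose, ← mulVec_transpose, ← mulVec_transpose, Dt_mulVec, det_transpose]

theorem NP.vecMul {a b : V7} (h : NP a b) {M : Matrix (Fin 3) (Fin 3) (ZMod 7)}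
    (hM : M.det ≠ 0) : NP (a ᵥ* M) (b ᵥ* M) := by
  rw [← mulVec_transpose, ← mulVec_transpose]
  exact h.mulVec (by rwa [det_transpose])

/-- six lines, pairwise different, and a configuration off them -/
structure Six (K : Type v) [Field K] (l : Fin 6 → V7) : Prop where
  cfg : Cfg K (List.ofFn l)
  np : ∀ i j, i ≠ j → NP (l i) (l j)

variable {l : Fin 6 → V7}

theorem Six.sub (h : Six K l) {σ : Fin 6 → Fin 6} (hσ : Function.Injective σ) :
    Six K (fun i => l (σ i)) := by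
  refine ⟨h.cfg.mono ?_, fun i j hij => h.np _ _ fun h => hij (hσ h)⟩
  intro c hc
  obtain ⟨i, rfl⟩ := (List.mem_ofFn' _ _).1 hc
  exact ⟨_, (List.mem_ofFn' _ _).2 ⟨σ i, rfl⟩, 1, one_ne_zero, (one_smul _ _).symm⟩

theorem Six.scale (h : Six K l) {x : Fin 6 → ZMod 7} (hx : ∀ i, x i ≠ 0) :
    Six K (fun i => x i • l i) := by
  refine ⟨h.cfg.mono ?_, fun i j hij => (h.np _ _ hij).smul (hx i) (hx j)⟩
  intro c hc
  obtain ⟨i, rfl⟩ := (List.mem_ofFn' _ _).1 hc
  exact ⟨_, (List.mem_ofFn' _ _).2 ⟨i, rfl⟩, x i, hx i, rfl⟩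

theorem Six.move (h : Six K l) {M : Matrix (Fin 3) (Fin 3) (ZMod 7)} (hM : M.det ≠ 0) :
    Six K (fun i => l i ᵥ* M) := by
  have hu : IsUnit M.det := hM.isUnit
  refine ⟨h.cfg.trans M⁻¹ ?_ ?_, fun i j hij => (h.np _ _ hij).vecMul hM⟩
  · rw [det_nonsing_inv, Ring.inverse_eq_inv']
    exact inv_ne_zero hM
  · intro c hc
    obtain ⟨i, rfl⟩ := (List.mem_ofFn' _ _).1 hc
    refine ⟨_, (List.mem_ofFn' _ _).2 ⟨i, rfl⟩, 1, one_ne_zero, ?_⟩
    rw [vecMul_vecMul, mul_nonsing_inv _ hu, vecMul_one, one_smul]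

/-- coordinates in which three given vectors are the basis -/
theorem exists_frame {a b c : V7} (h : Dt a b c ≠ 0) :
    ∃ M : Matrix (Fin 3) (Fin 3) (ZMod 7), M.det ≠ 0 ∧ a ᵥ* M = vec7 (1, 0, 0) ∧
      b ᵥ* M = vec7 (0, 1, 0) ∧ c ᵥ* M = vec7 (0, 0, 1) := by
  have hdet : (Matrix.of ![a, b, c]).det ≠ 0 := by
    intro h0
    apply h
    rw [← h0, Matrix.det_fin_three]
    simp [Dt]
    ring
  have ea : vec7 (1, 0, 0) ᵥ* Matrix.of ![a, b, c] = a := by
    funext i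
    rw [vecMul, dotProduct, Fin.sum_univ_three]
    fin_cases i <;> simp [vec7]
  have eb : vec7 (0, 1, 0) ᵥ* Matrix.of ![a, b, c] = b := by
    funext i
    rw [vecMul, dotProduct, Fin.sum_univ_three]
    fin_cases i <;> simp [vec7]
  have ec : vec7 (0, 0, 1) ᵥ* Matrix.of ![a, b, c] = c := by
    funext i
    rw [vecMul, dotProduct, Fin.sum_univ_three]
    fin_cases i <;> simp [vec7]
  generalize Matrix.of ![a, b, c] = N at hdet ea eb ec
  have hu := hdet.isUnit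
  refine ⟨N⁻¹, ?_, ?_, ?_, ?_⟩
  · rw [det_nonsing_inv, Ring.inverse_eq_inv']
    exact inv_ne_zero hdet
  · rw [← ea, vecMul_vecMul, mul_nonsing_inv _ hu, vecMul_one]
  · rw [← eb, vecMul_vecMul, mul_nonsing_inv _ hu, vecMul_one]
  · rw [← ec, vecMul_vecMul, mul_nonsing_inv _ hu, vecMul_one]

theorem not_NP_of_eq_smul {a b : V7} {c : ZMod 7} (h : b = c • a) : ¬ NP a b := by
  rw [h]
  exact not_NP_smul c a

/-- concurrent lines -/
theorem conc (h : Six K l) (hD : ∀ i, Dt (l 0) (l 1) (l i) = 0) : False := by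
  obtain ⟨m, hm⟩ := h.np 0 1 (by decide)
  obtain ⟨M, hM, h0, h1, -⟩ := exists_frame hm
  have h' := h.move hM
  have h2 : ∀ i, (l i ᵥ* M) 2 = 0 := by
    intro i
    have h3 := Dt_vecMul M (l 0) (l 1) (l i)
    rw [hD i, mul_zero, h0, h1] at h3
    rw [← h3]
    simp [Dt, vec7]
  have hx : ∀ i, i ≠ 0 → i ≠ 1 → (l i ᵥ* M) 0 ≠ 0 ∧ (l i ᵥ* M) 1 ≠ 0 := by
    intro i hi0 hi1
    constructor
    · intro h4
      apply not_NP_of_eq_smul (c := (l i ᵥ* M) 1) ?_ (h'.np 1 i hi1.symm)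
      rw [h1]
      funext j
      fin_cases j
      · simp [vec7, h4]
      · simp [vec7]
      · simp [vec7, h2 i]
    · intro h4
      apply not_NP_of_eq_smul (c := (l i ᵥ* M) 0) ?_ (h'.np 0 i hi0.symm)
      rw [h0]
      funext j
      fin_cases j
      · simp [vec7]
      · simp [vec7, h4]
      · simp [vec7, h2 i]
  -- the normal form
  have key : ∀ i, i ≠ 0 → i ≠ 1 → ∃ a < 7, a ≠ 0 ∧ ∃ c : ZMod 7, c ≠ 0 ∧
      l i ᵥ* M = c • vec7 (1, a, 0) := by
    intro i hi0 hi1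
    obtain ⟨hx0, hx1⟩ := hx i hi0 hi1
    refine ⟨((l i ᵥ* M) 1 / (l i ᵥ* M) 0).val, ZMod.val_lt _, ?_, (l i ᵥ* M) 0, hx0, ?_⟩
    · rw [Ne, ZMod.val_eq_zero]
      exact div_ne_zero hx1 hx0
    · funext j
      fin_cases j
      · simp [vec7]
      · simp [vec7, mul_div_cancel₀ _ hx0]
      · simp [vec7, h2 i]
  obtain ⟨a, ha, ha0, ca, hca, hla⟩ := key 2 (by decide) (by decide)
  obtain ⟨b, hb, hb0, cb, hcb, hlb⟩ := key 3 (by decide) (by decide)
  obtain ⟨c, hc, hc0, cc, hcc, hlc⟩ := key 4 (by decide) (by decide)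
  have hne : ∀ {i j : Fin 6} {x y : ℕ} {u v : ZMod 7}, i ≠ j → u ≠ 0 →
      l i ᵥ* M = u • vec7 (1, x, 0) → l j ᵥ* M = v • vec7 (1, y, 0) → x ≠ y := by
    intro i j x y u v hij hu h5 h6 hxy
    subst hxy
    refine not_NP_of_eq_smul (c := v / u) ?_ (h'.np i j hij)
    show l j ᵥ* M = (v / u) • (l i ᵥ* M)
    rw [h5, h6, smul_smul, div_mul_cancel₀ _ hu]
  refine conc_code ha hb hc ha0 hb0 hc0 (hne (by decide) hca hla hlb)
    (hne (by decide) hca hla hlc) (hne (by decide) hcb hlb hlc) (h'.cfg.mono ?_)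
  intro c' hc'
  simp only [List.map_cons, List.map_nil, List.mem_cons, List.not_mem_nil, or_false] at hc'
  have inv : ∀ {i : Fin 6} {u : ZMod 7} {y : V7}, u ≠ 0 → l i ᵥ* M = u • y →
      ∃ c ∈ List.ofFn (fun i => l i ᵥ* M), ∃ x : ZMod 7, x ≠ 0 ∧ y = x • c := by
    intro i u y hu hy
    refine ⟨_, (List.mem_ofFn' _ _).2 ⟨i, rfl⟩, u⁻¹, inv_ne_zero hu, ?_⟩
    show y = u⁻¹ • (l i ᵥ* M)
    rw [hy, smul_smul, inv_mul_cancel₀ hu, one_smul]
  rcases hc' with rfl | rfl | rfl | rfl | rfl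
  · exact inv (i := 0) one_ne_zero (by rw [h0, one_smul])
  · exact inv (i := 1) one_ne_zero (by rw [h1, one_smul])
  · exact inv hca hla
  · exact inv hcb hlb
  · exact inv hcc hlc

/-- the first three lines are the coordinate lines -/
structure Frm (l : Fin 6 → V7) : Prop where
  h0 : l 0 = vec7 (1, 0, 0)
  h1 : l 1 = vec7 (0, 1, 0)
  h2 : l 2 = vec7 (0, 0, 1)

theorem norm3 (h : Six K l) (hf : Frm l) {q : T3}
    (hq : ∀ j, vec7 q j = if l 3 j = 0 then 0 else 1) :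
    ∃ l' : Fin 6 → V7, Six K l' ∧ Frm l' ∧ l' 3 = vec7 q ∧ ∀ i j, l' i j = 0 ↔ l i j = 0 := by
  let x : Fin 3 → ZMod 7 := fun j => if l 3 j = 0 then 1 else (l 3 j)⁻¹
  have hx : ∀ j, x j ≠ 0 := by
    intro j
    simp only [x]
    split_ifs with h
    · exact one_ne_zero
    · exact inv_ne_zero h
  have hM : (Matrix.diagonal x).det ≠ 0 := by
    rw [det_diagonal]
    exact Finset.prod_ne_zero_iff.2 fun j _ => hx j
  let s : Fin 6 → ZMod 7 := ![(x 0)⁻¹, (x 1)⁻¹, (x 2)⁻¹, 1, 1, 1]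
  have hs : ∀ i, s i ≠ 0 := by
    intro i
    fin_cases i
    · exact inv_ne_zero (hx 0)
    · exact inv_ne_zero (hx 1)
    · exact inv_ne_zero (hx 2)
    · exact one_ne_zero
    · exact one_ne_zero
    · exact one_ne_zero
  refine ⟨fun i => s i • (l i ᵥ* Matrix.diagonal x), (h.move hM).scale hs, ⟨?_, ?_, ?_⟩, ?_, ?_⟩
  · funext j
    show (x 0)⁻¹ • (l 0 ᵥ* Matrix.diagonal x) j = _
    rw [vecMul_diagonal, hf.h0]
    fin_cases j
    · simp [vec7, inv_mul_cancel₀ (hx 0)]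
    · simp [vec7]
    · simp [vec7]
  · funext j
    show (x 1)⁻¹ • (l 1 ᵥ* Matrix.diagonal x) j = _
    rw [vecMul_diagonal, hf.h1]
    fin_cases j
    · simp [vec7]
    · simp [vec7, inv_mul_cancel₀ (hx 1)]
    · simp [vec7]
  · funext j
    show (x 2)⁻¹ • (l 2 ᵥ* Matrix.diagonal x) j = _
    rw [vecMul_diagonal, hf.h2]
    fin_cases j
    · simp [vec7]
    · simp [vec7]
    · simp [vec7, inv_mul_cancel₀ (hx 2)]
  · funext j
    show (1 : ZMod 7) • (l 3 ᵥ* Matrix.diagonal x) j = _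
    rw [vecMul_diagonal, hq j, one_smul]
    by_cases h3 : l 3 j = 0
    · rw [if_pos h3, h3, zero_mul]
    · rw [if_neg h3]
      show l 3 j * (if l 3 j = 0 then 1 else (l 3 j)⁻¹) = 1
      rw [if_neg h3, mul_inv_cancel₀ h3]
  · intro i j
    show s i • (l i ᵥ* Matrix.diagonal x) j = 0 ↔ _
    rw [vecMul_diagonal, smul_eq_mul, mul_eq_zero, or_iff_right (hs i), mul_eq_zero,
      or_iff_left (hx j)]

/-- the codes of the last two lines -/
theorem codes2 (h : Six K l) (hf : Frm l) {q : T3} (hq : l 3 = vec7 q) :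
    ∃ p p' : ℕ, p < 57 ∧ p' < 57 ∧ p ≠ p' ∧ (∀ j, vec7 (pt p) j = 0 ↔ l 4 j = 0) ∧
      (∀ j, vec7 (pt p') j = 0 ↔ l 5 j = 0) ∧
      (∀ c ∈ [(1, 0, 0), (0, 1, 0), (0, 0, 1), q], vec7 (pt p) ≠ vec7 c ∧
        vec7 (pt p') ≠ vec7 c) ∧ Cfg K ((normL q p p').map vec7) := by
  obtain ⟨p, hp, c, hc, hl4⟩ := exists_code (l 4) (h.np 4 5 (by decide)).ne_zero
  obtain ⟨p', hp', c', hc', hl5⟩ := exists_code (l 5) (h.np 5 4 (by decide)).ne_zero
  have hz : ∀ {c : ZMod 7} {y : V7} (j : Fin 3), c ≠ 0 → ((c • y) j = 0 ↔ y j = 0) := by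
    intro c y j hc
    rw [Pi.smul_apply, smul_eq_mul, mul_eq_zero, or_iff_right hc]
  have hne : ∀ (i : Fin 6) (a : T3) (y : ℕ) (u : ZMod 7) (j : Fin 6), i ≠ j → l i = vec7 a →
      l j = u • vec7 (pt y) → vec7 (pt y) ≠ vec7 a := by
    intro i a y u j hij h1 h2 h3
    exact not_NP_of_eq_smul (c := u) (by rw [h2, h1, h3]) (h.np i j hij)
  refine ⟨p, p', hp, hp', ?_, ?_, ?_, ?_, h.cfg.mono ?_⟩
  · rintro rfl
    refine not_NP_of_eq_smul (c := c' / c) ?_ (h.np 4 5 (by decide))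
    rw [hl4, hl5, smul_smul, div_mul_cancel₀ _ hc]
  · intro j
    rw [hl4, hz j hc]
  · intro j
    rw [hl5, hz j hc']
  · intro a ha
    simp only [List.mem_cons, List.not_mem_nil, or_false] at ha
    rcases ha with rfl | rfl | rfl | rfl
    · exact ⟨hne 0 _ p c 4 (by decide) hf.h0 hl4, hne 0 _ p' c' 5 (by decide) hf.h0 hl5⟩
    · exact ⟨hne 1 _ p c 4 (by decide) hf.h1 hl4, hne 1 _ p' c' 5 (by decide) hf.h1 hl5⟩
    · exact ⟨hne 2 _ p c 4 (by decide) hf.h2 hl4, hne 2 _ p' c' 5 (by decide) hf.h2 hl5⟩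
    · exact ⟨hne 3 _ p c 4 (by decide) hq hl4, hne 3 _ p' c' 5 (by decide) hq hl5⟩
  · intro a ha
    have inv : ∀ {i : Fin 6} {u : ZMod 7} {y : V7}, u ≠ 0 → l i = u • y →
        ∃ c ∈ List.ofFn l, ∃ x : ZMod 7, x ≠ 0 ∧ y = x • c := by
      intro i u y hu hy
      refine ⟨_, (List.mem_ofFn' _ _).2 ⟨i, rfl⟩, u⁻¹, inv_ne_zero hu, ?_⟩
      rw [hy, smul_smul, inv_mul_cancel₀ hu, one_smul]
    simp only [normL, List.map_cons, List.map_nil, List.mem_cons, List.not_mem_nil,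
      or_false] at ha
    rcases ha with rfl | rfl | rfl | rfl | rfl | rfl
    · exact inv (i := 0) one_ne_zero (by rw [hf.h0, one_smul])
    · exact inv (i := 1) one_ne_zero (by rw [hf.h1, one_smul])
    · exact inv (i := 2) one_ne_zero (by rw [hf.h2, one_smul])
    · exact inv (i := 3) one_ne_zero (by rw [hq, one_smul])
    · exact inv hc hl4
    · exact inv hc' hl5

theorem excl_false {p : ℕ} (h : ∀ c ∈ [(1, 0, 0), (0, 1, 0), (0, 0, 1), (1, 1, 1)],
    vec7 (pt p) ≠ vec7 c) : excl p = false := by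
  rw [← Bool.not_eq_true]
  intro h1
  unfold excl at h1
  simp only [Bool.or_eq_true, beq_iff_eq] at h1
  rcases h1 with ((rfl | rfl) | rfl) | rfl
  · exact h (1, 0, 0) (by simp) rfl
  · exact h (0, 1, 0) (by simp) rfl
  · exact h (0, 0, 1) (by simp) rfl
  · exact h (1, 1, 1) (by simp) rfl

theorem full_false {p : ℕ} {j : Fin 3} (h : vec7 (pt p) j = 0) : full (pt p) = false := by
  rw [← Bool.not_eq_true]
  intro h1
  unfold full at h1
  rw [Bool.and_eq_true, Bool.and_eq_true] at h1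
  fin_cases j
  · exact nz_cast h1.1.1 h
  · exact nz_cast h1.1.2 h
  · exact nz_cast h1.2 h

/-- a full line -/
theorem case_full (h : Six K l) (hf : Frm l) (h3 : ∀ j, l 3 j ≠ 0) : (7 : K) = 0 := by
  obtain ⟨l', h', hf', hq, -⟩ := norm3 h hf (q := (1, 1, 1)) (by
    intro j
    rw [if_neg (h3 j)]
    fin_cases j <;> simp [vec7])
  obtain ⟨p, p', hp, hp', hpp, -, -, hne, hC⟩ := codes2 h' hf' hq
  exact stepB_code hpp hp hp' (excl_false fun c hc => (hne c hc).1)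
    (excl_false fun c hc => (hne c hc).2) hC

/-- no full line -/
theorem case_none (h : Six K l) (hf : Frm l) {q : T3} (hq : chkQ q = true)
    (hq' : ∀ j, vec7 q j = if l 3 j = 0 then 0 else 1) (h4 : ∃ j, l 4 j = 0)
    (h5 : ∃ j, l 5 j = 0) : False := by
  obtain ⟨l', h', hf', hq3, hz⟩ := norm3 h hf hq'
  obtain ⟨p, p', hp, hp', hpp, hz4, hz5, hne, hC⟩ := codes2 h' hf' hq3
  obtain ⟨j4, hj4⟩ := h4
  obtain ⟨j5, hj5⟩ := h5
  exact stepC_code hq hpp hp hp' (full_false (j := j4) ((hz4 j4).2 ((hz 4 j4).2 hj4)))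
    (full_false (j := j5) ((hz5 j5).2 ((hz 5 j5).2 hj5))) hne hC

theorem exists_perm (i j k : Fin 6) (hij : i ≠ j) (hik : i ≠ k) (hjk : j ≠ k) :
    ∃ σ : Fin 6 → Fin 6, Function.Injective σ ∧ σ 0 = i ∧ σ 1 = j ∧ σ 2 = k := by
  have hc : ({i, j, k}ᶜ : Finset (Fin 6)).card = 3 := by
    rw [Finset.card_compl, Fintype.card_fin, Finset.card_eq_three.2 ⟨i, j, k, hij, hik, hjk, rfl⟩]
  obtain ⟨a, b, c, hab, hac, hbc, he⟩ := Finset.card_eq_three.1 hc
  have ha : a ∈ ({i, j, k}ᶜ : Finset (Fin 6)) := by rw [he]; simp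
  have hb : b ∈ ({i, j, k}ᶜ : Finset (Fin 6)) := by rw [he]; simp
  have hc : c ∈ ({i, j, k}ᶜ : Finset (Fin 6)) := by rw [he]; simp
  simp only [Finset.mem_compl, Finset.mem_insert, Finset.mem_singleton, not_or] at ha hb hc
  refine ⟨![i, j, k, a, b, c], ?_, rfl, rfl, rfl⟩
  obtain ⟨a1, a2, a3⟩ := ha
  obtain ⟨b1, b2, b3⟩ := hb
  obtain ⟨c1, c2, c3⟩ := hc
  intro x y hxy
  fin_cases x <;> fin_cases y <;>
    first
      | rfl
      | exact absurd hxy hij
      | exact absurd hxy hik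
      | exact absurd hxy hjk
      | exact absurd hxy hij.symm
      | exact absurd hxy hik.symm
      | exact absurd hxy hjk.symm
      | exact absurd hxy a1
      | exact absurd hxy a2
      | exact absurd hxy a3
      | exact absurd hxy b1
      | exact absurd hxy b2
      | exact absurd hxy b3
      | exact absurd hxy c1
      | exact absurd hxy c2
      | exact absurd hxy c3
      | exact absurd hxy (Ne.symm a1)
      | exact absurd hxy (Ne.symm a2)
      | exact absurd hxy (Ne.symm a3)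
      | exact absurd hxy (Ne.symm b1)
      | exact absurd hxy (Ne.symm b2)
      | exact absurd hxy (Ne.symm b3)
      | exact absurd hxy (Ne.symm c1)
      | exact absurd hxy (Ne.symm c2)
      | exact absurd hxy (Ne.symm c3)
      | exact absurd hxy hab
      | exact absurd hxy hac
      | exact absurd hxy hbc
      | exact absurd hxy hab.symm
      | exact absurd hxy hac.symm
      | exact absurd hxy hbc.symm

/-- **Six lines.** -/
theorem main6 (h : Six K l) : (7 : K) = 0 := by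
  by_cases hD : ∀ i j k, Dt (l i) (l j) (l k) = 0
  · exact (conc h fun i => hD 0 1 i).elim
  push Not at hD
  obtain ⟨i, j, k, hD⟩ := hD
  have hij : i ≠ j := by
    rintro rfl
    apply hD
    simp only [Dt]
    ring
  have hik : i ≠ k := by
    rintro rfl
    apply hD
    simp only [Dt]
    ring
  have hjk : j ≠ k := by
    rintro rfl
    apply hD
    simp only [Dt]
    ring
  obtain ⟨σ, hσ, rfl, rfl, rfl⟩ := exists_perm i j k hij hik hjk
  obtain ⟨M, hM, h0, h1, h2⟩ := exists_frame hD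
  have h' := (h.sub hσ).move hM
  have hf : Frm (fun i => l (σ i) ᵥ* M) := ⟨h0, h1, h2⟩
  generalize (fun i => l (σ i) ᵥ* M) = L at h' hf
  clear hM h0 h1 h2 hD hij hik hjk hσ h
  by_cases hfull : ∃ i, i ≠ 0 ∧ i ≠ 1 ∧ i ≠ 2 ∧ ∀ j, L i j ≠ 0
  · obtain ⟨i, hi0, hi1, hi2, hi⟩ := hfull
    have hs : Function.Injective (Equiv.swap 3 i) := (Equiv.swap 3 i).injective
    have e0 : Equiv.swap 3 i 0 = 0 := Equiv.swap_apply_of_ne_of_ne (by decide) hi0.symm
    have e1 : Equiv.swap 3 i 1 = 1 := Equiv.swap_apply_of_ne_of_ne (by decide) hi1.symm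
    have e2 : Equiv.swap 3 i 2 = 2 := Equiv.swap_apply_of_ne_of_ne (by decide) hi2.symm
    refine case_full (h'.sub hs) ⟨?_, ?_, ?_⟩ ?_
    · show L (Equiv.swap 3 i 0) = _
      rw [e0, hf.h0]
    · show L (Equiv.swap 3 i 1) = _
      rw [e1, hf.h1]
    · show L (Equiv.swap 3 i 2) = _
      rw [e2, hf.h2]
    · show ∀ j, L (Equiv.swap 3 i 3) j ≠ 0
      rw [Equiv.swap_apply_left]
      exact hi
  · push Not at hfull
    obtain ⟨j, hj⟩ := hfull 3 (by decide) (by decide) (by decide)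
    have h4 := hfull 4 (by decide) (by decide) (by decide)
    have h5 := hfull 5 (by decide) (by decide) (by decide)
    -- two zero coordinates are impossible
    have g0 := h'.np 0 3 (by decide)
    have g1 := h'.np 1 3 (by decide)
    have g2 := h'.np 2 3 (by decide)
    have k01 : ¬ (L 3 0 = 0 ∧ L 3 1 = 0) := by
      rintro ⟨x, y⟩
      refine not_NP_of_eq_smul (c := L 3 2) ?_ g2
      rw [hf.h2]
      funext j
      fin_cases j
      · simp [vec7, x]
      · simp [vec7, y]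
      · simp [vec7]
    have k02 : ¬ (L 3 0 = 0 ∧ L 3 2 = 0) := by
      rintro ⟨x, y⟩
      refine not_NP_of_eq_smul (c := L 3 1) ?_ g1
      rw [hf.h1]
      funext j
      fin_cases j
      · simp [vec7, x]
      · simp [vec7]
      · simp [vec7, y]
    have k12 : ¬ (L 3 1 = 0 ∧ L 3 2 = 0) := by
      rintro ⟨x, y⟩
      refine not_NP_of_eq_smul (c := L 3 0) ?_ g0
      rw [hf.h0]
      funext j
      fin_cases j
      · simp [vec7]
      · simp [vec7, x]
      · simp [vec7, y]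
    exfalso
    fin_cases j
    · have a0 : L 3 0 = 0 := hj
      have a1 : L 3 1 ≠ 0 := fun h => k01 ⟨a0, h⟩
      have a2 : L 3 2 ≠ 0 := fun h => k02 ⟨a0, h⟩
      refine case_none h' hf kern_q1 ?_ h4 h5
      intro j
      fin_cases j
      · simp [vec7, a0]
      · simp [vec7, a1]
      · simp [vec7, a2]
    · have a1 : L 3 1 = 0 := hj
      have a0 : L 3 0 ≠ 0 := fun h => k01 ⟨h, a1⟩
      have a2 : L 3 2 ≠ 0 := fun h => k12 ⟨a1, h⟩
      refine case_none h' hf kern_q2 ?_ h4 h5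
      intro j
      fin_cases j
      · simp [vec7, a0]
      · simp [vec7, a1]
      · simp [vec7, a2]
    · have a2 : L 3 2 = 0 := hj
      have a0 : L 3 0 ≠ 0 := fun h => k02 ⟨h, a2⟩
      have a1 : L 3 1 ≠ 0 := fun h => k12 ⟨h, a2⟩
      refine case_none h' hf kern_q3 ?_ h4 h5
      intro j
      fin_cases j
      · simp [vec7, a0]
      · simp [vec7, a1]
      · simp [vec7, a2]

end Pool.Agent.Helper21_Gamma7
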