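import Pool.Agent.Helper21_Gamma7.Check

/-!
Configurations of 22 points avoiding a list of lines; changes of coordinates; the thirteen types.
-/

namespace Pool.Agent.Helper21_Gamma7

open Pool.Agent.Helper61_Gamma Matrix

universe v

abbrev V7 := Fin 3 → ZMod 7

/-- different points -/
def NP (a b : V7) : Prop := ∃ m, Dt a b m ≠ 0

theorem NP.symm {a b : V7} (h : NP a b) : NP b a := by
  obtain ⟨m, hm⟩ := h
  refine ⟨m, fun h => hm ?_⟩
  simp only [Dt] at h ⊢
  linear_combination -h

theorem NP.ne_zero {a b : V7} (h : NP a b) : a ≠ 0 := by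
  rintro rfl
  obtain ⟨m, hm⟩ := h
  apply hm
  simp [Dt]

theorem not_NP_smul (c : ZMod 7) (a : V7) : ¬ NP a (c • a) := by
  rintro ⟨m, hm⟩
  apply hm
  simp only [Dt, Pi.smul_apply, smul_eq_mul]
  ring

theorem NP.smul {a b : V7} (h : NP a b) {c d : ZMod 7} (hc : c ≠ 0) (hd : d ≠ 0) :
    NP (c • a) (d • b) := by
  obtain ⟨m, hm⟩ := h
  refine ⟨m, fun h => hm ?_⟩
  have e : Dt (c • a) (d • b) m = c * d * Dt a b m := by
    simp only [Dt, Pi.smul_apply, smul_eq_mul]
    ring
  rw [e] at h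
  exact (mul_eq_zero.1 h).resolve_left (mul_ne_zero hc hd)

theorem NP.mulVec {a b : V7} (h : NP a b) {M : Matrix (Fin 3) (Fin 3) (ZMod 7)}
    (hM : M.det ≠ 0) : NP (M.mulVec a) (M.mulVec b) := by
  obtain ⟨m, hm⟩ := h
  refine ⟨M.mulVec m, ?_⟩
  rw [Dt_mulVec]
  exact mul_ne_zero hM hm

/-- 22 points of the plane over `ZMod 7`, off the lines of the list `L`, together with a
representation over `K` -/
def Cfg (K : Type v) [Field K] (L : List V7) : Prop :=
  ∃ (v : Fin 22 → V7) (w : Fin 22 → Fin 3 → K), (∀ i j, i ≠ j → NP (v i) (v j)) ∧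
    (∀ i j k, Dt (v i) (v j) (v k) = 0 ↔ Dt (w i) (w j) (w k) = 0) ∧
    ∀ c ∈ L, ∀ i, c ⬝ᵥ v i ≠ 0

variable {K : Type v} [Field K]

theorem Cfg.trans {L L' : List V7} (h : Cfg K L) (M : Matrix (Fin 3) (Fin 3) (ZMod 7))
    (hM : M.det ≠ 0) (hL : ∀ c' ∈ L', ∃ c ∈ L, ∃ x : ZMod 7, x ≠ 0 ∧ c' ᵥ* M = x • c) :
    Cfg K L' := by
  obtain ⟨v, w, h1, h2, h3⟩ := h
  refine ⟨fun i => M.mulVec (v i), w, fun i j hij => (h1 i j hij).mulVec hM, ?_, ?_⟩
  · intro i j k
    rw [← h2, Dt_mulVec, mul_eq_zero, or_iff_right hM]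
  · intro c' hc' i
    obtain ⟨c, hc, x, hx, hxc⟩ := hL c' hc'
    rw [dotProduct_mulVec, hxc, smul_dotProduct, smul_eq_mul]
    exact mul_ne_zero hx (h3 c hc i)

theorem Cfg.mono {L L' : List V7} (h : Cfg K L)
    (hL : ∀ c' ∈ L', ∃ c ∈ L, ∃ x : ZMod 7, x ≠ 0 ∧ c' = x • c) : Cfg K L' := by
  apply h.trans 1 (by simp)
  intro c' hc'
  obtain ⟨c, hc, x, hx, e⟩ := hL c' hc'
  exact ⟨c, hc, x, hx, by rw [vecMul_one, e]⟩

/-! ### codes -/

theorem exists_code (x : V7) (hx : x ≠ 0) :
    ∃ p < 57, ∃ c : ZMod 7, c ≠ 0 ∧ x = c • vec7 (pt p) := by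
  have hv : ∀ y : ZMod 7, y.val < 7 := ZMod.val_lt
  by_cases h0 : x 0 = 0
  · by_cases h1 : x 1 = 0
    · have h2 : x 2 ≠ 0 := by
        intro h2
        apply hx
        funext i
        fin_cases i
        · exact h0
        · exact h1
        · exact h2
      refine ⟨56, by omega, x 2, h2, ?_⟩
      rw [show pt 56 = (0, 0, 1) from rfl]
      funext i
      fin_cases i <;> simp [vec7, h0, h1]
    · refine ⟨49 + (x 2 / x 1).val, by have := hv (x 2 / x 1); omega, x 1, h1, ?_⟩
      have e : pt (49 + (x 2 / x 1).val) = (0, 1, (x 2 / x 1).val) := by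
        have h := hv (x 2 / x 1)
        unfold pt
        rw [show (49 + (x 2 / x 1).val).blt 49 = false by
            rw [← Bool.not_eq_true, Nat.blt_eq]; omega,
          show (49 + (x 2 / x 1).val).blt 56 = true by rw [Nat.blt_eq]; omega]
        simp
      rw [e]
      funext i
      fin_cases i
      · simp [vec7, h0]
      · simp [vec7]
      · simp [vec7, mul_div_cancel₀ _ h1]
  · refine ⟨7 * (x 1 / x 0).val + (x 2 / x 0).val, ?_, x 0, h0, ?_⟩
    · have := hv (x 1 / x 0)
      have := hv (x 2 / x 0)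
      omega
    have e : pt (7 * (x 1 / x 0).val + (x 2 / x 0).val) =
        (1, (x 1 / x 0).val, (x 2 / x 0).val) := by
      have g1 := hv (x 1 / x 0)
      have g2 := hv (x 2 / x 0)
      unfold pt
      rw [show (7 * (x 1 / x 0).val + (x 2 / x 0).val).blt 49 = true by
        rw [Nat.blt_eq]; omega]
      rw [show (7 * (x 1 / x 0).val + (x 2 / x 0).val) / 7 = (x 1 / x 0).val by omega,
        show (7 * (x 1 / x 0).val + (x 2 / x 0).val) % 7 = (x 2 / x 0).val by omega]
      rfl
    rw [e]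
    funext i
    fin_cases i
    · simp [vec7]
    · simp [vec7, mul_div_cancel₀ _ h0]
    · simp [vec7, mul_div_cancel₀ _ h0]

theorem dot7_zero (a b : T3) : dot7 a b = 0 ↔ vec7 a ⬝ᵥ vec7 b = 0 := by
  rw [dot7, ← Nat.dvd_iff_mod_eq_zero, ← ZMod.natCast_eq_zero_iff]
  push_cast
  rw [dotProduct, Fin.sum_univ_three, vec7, vec7]
  simp only [Matrix.cons_val_zero, Matrix.cons_val_one, Matrix.cons_val]
  rw [add_assoc]

/-- the 22 codes of a configuration -/
theorem Cfg.codes {L : List T3} (h : Cfg K (L.map vec7)) :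
    ∃ (P : Finset ℕ) (W : ℕ → Fin 3 → K), P.card = 22 ∧ P ⊆ (Uof L).toFinset ∧
      Rep7 (fun x => x ∈ P) W := by
  classical
  obtain ⟨v, w, h1, h2, h3⟩ := h
  have hne : ∀ i, v i ≠ 0 := by
    intro i
    obtain ⟨j, hj⟩ : ∃ j : Fin 22, i ≠ j := by
      by_cases h : i = 0
      · exact ⟨1, by rw [h]; decide⟩
      · exact ⟨0, h⟩
    exact (h1 i j hj).ne_zero
  choose p hp c hc hv using fun i => exists_code (v i) (hne i)
  have hinj : Function.Injective p := by
    intro i j hij
    by_contra hne'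
    have := h1 i j hne'
    rw [hv i, hv j, hij] at this
    have e : c j • vec7 (pt (p j)) = (c j / c i) • (c i • vec7 (pt (p j))) := by
      rw [smul_smul, div_mul_cancel₀ _ (hc i)]
    rw [e] at this
    exact not_NP_smul _ _ this
  have hcol : ∀ i j k, D7 (pt (p i)) (pt (p j)) (pt (p k)) = 0 ↔ Dt (w i) (w j) (w k) = 0 := by
    intro i j k
    rw [← h2, hv i, hv j, hv k, Dt_smul3, D7_zero, mul_eq_zero,
      or_iff_right (mul_ne_zero (mul_ne_zero (hc i) (hc j)) (hc k))]
  let W : ℕ → Fin 3 → K := fun x => if hx : ∃ i, p i = x then w hx.choose else 0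
  have hW : ∀ i, W (p i) = w i := by
    intro i
    have hx : ∃ j, p j = p i := ⟨i, rfl⟩
    simp only [W]
    rw [dif_pos hx, hinj hx.choose_spec]
  refine ⟨Finset.univ.image p, W, ?_, ?_, ?_⟩
  · rw [Finset.card_image_of_injective _ hinj, Finset.card_univ, Fintype.card_fin]
  · intro x hx
    obtain ⟨i, -, rfl⟩ := Finset.mem_image.1 hx
    rw [List.mem_toFinset, Uof, List.mem_filter, List.mem_range, List.all_eq_true]
    refine ⟨hp i, fun a ha => ?_⟩
    rw [bne_iff_ne]
    intro h0
    apply h3 (vec7 a) (List.mem_map_of_mem ha) i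
    rw [hv i, dotProduct_smul, (dot7_zero _ _).1 h0, smul_zero]
  · intro a b c' ha hb hc'
    obtain ⟨i, -, rfl⟩ := Finset.mem_image.1 ha
    obtain ⟨j, -, rfl⟩ := Finset.mem_image.1 hb
    obtain ⟨k, -, rfl⟩ := Finset.mem_image.1 hc'
    rw [hW, hW, hW]
    exact hcol i j k

theorem Uof_card (L : List T3) : (Uof L).toFinset.card = (Uof L).length :=
  List.toFinset_card_of_nodup (List.nodup_range.filter _)

theorem small {L : List T3} (h : Cfg K (L.map vec7)) (hU : (Uof L).length < 22) : False := by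
  obtain ⟨P, W, h1, h2, h3⟩ := h.codes
  have := Finset.card_le_card h2
  rw [h1, Uof_card] at this
  omega

theorem has_iff (l : List ℕ) (x : ℕ) : has l x = true ↔ x ∈ l := by
  rw [has, List.any_eq_true]
  constructor
  · rintro ⟨y, hy, e⟩
    rw [beq_iff_eq] at e
    rwa [← e]
  · intro h
    exact ⟨x, h, by simp⟩

theorem rep_sound {L : List T3} (h : Cfg K (L.map vec7)) {cs : List Cert}
    (hcs : chkU (Uof L) cs = true) : (7 : K) = 0 := by
  obtain ⟨P, W, h1, h2, h3⟩ := h.codes
  unfold chkU at hcs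
  rw [Bool.and_eq_true, List.all_eq_true] at hcs
  obtain ⟨hok, hcov⟩ := hcs
  -- a certificate whose points are in `P`
  have key : ∀ C ∈ cs, (∀ x ∈ C.sup, x ∉ (Uof L).toFinset \ P) → (7 : K) = 0 := by
    intro C hC hx
    have hC' := hok C hC
    rw [Bool.and_eq_true, List.all_eq_true] at hC'
    apply cert_sound h3 hC'.1
    intro x hxs
    have h4 := (has_iff _ _).1 (hC'.2 x hxs)
    have h5 := hx x hxs
    rw [Finset.mem_sdiff, not_and, not_not] at h5
    exact h5 (List.mem_toFinset.2 h4)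
  have hcard : ((Uof L).toFinset \ P).card + 22 = (Uof L).length := by
    rw [← h1, Finset.card_sdiff_add_card_eq_card h2, Uof_card]
  have hmem : ∀ r, r ∈ (Uof L).toFinset \ P → r ∈ Uof L := fun r hr =>
    List.mem_toFinset.1 (Finset.mem_sdiff.1 hr).1
  split at hcov
  next hlen =>
    rw [List.any_eq_true] at hcov
    obtain ⟨C, hC, -⟩ := hcov
    apply key C hC
    intro x _ hx
    have : 0 < ((Uof L).toFinset \ P).card := Finset.card_pos.2 ⟨x, hx⟩
    omega
  next =>
    split at hcov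
    next hlen =>
      obtain ⟨r, hr⟩ := Finset.card_eq_one.1 (show ((Uof L).toFinset \ P).card = 1 by omega)
      rw [List.all_eq_true] at hcov
      have h4 := hcov r (hmem r (by rw [hr]; simp))
      rw [List.any_eq_true] at h4
      obtain ⟨C, hC, h5⟩ := h4
      rw [Bool.not_eq_true'] at h5
      apply key C hC
      intro x hx hx'
      rw [hr, Finset.mem_singleton] at hx'
      subst hx'
      rw [(has_iff _ _).2 hx] at h5
      exact absurd h5 (by simp)
    next =>
      split at hcov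
      next hlen =>
        obtain ⟨r, r', -, hr⟩ := Finset.card_eq_two.1
          (show ((Uof L).toFinset \ P).card = 2 by omega)
        rw [List.all_eq_true] at hcov
        have h4 := hcov r (hmem r (by rw [hr]; simp))
        rw [List.all_eq_true] at h4
        have h5 := h4 r' (hmem r' (by rw [hr]; simp))
        rw [List.any_eq_true] at h5
        obtain ⟨C, hC, h6⟩ := h5
        rw [Bool.and_eq_true, Bool.not_eq_true', Bool.not_eq_true'] at h6
        apply key C hC
        intro x hx hx'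
        rw [hr, Finset.mem_insert, Finset.mem_singleton] at hx'
        rcases hx' with rfl | rfl
        · rw [(has_iff _ _).2 hx] at h6
          exact absurd h6.1 (by simp)
        · rw [(has_iff _ _).2 hx] at h6
          exact absurd h6.2 (by simp)
      next => exact absurd hcov (by simp)

end Pool.Agent.Helper21_Gamma7
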