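import Pool.Agent.Helper21_Gamma7.Red
import Pool.Agent.Helper21_Gamma7.Kern

/-!
Six lines in normal form.
-/

namespace Pool.Agent.Helper21_Gamma7

open Pool.Agent.Helper61_Gamma Matrix

universe v

variable {K : Type v} [Field K]

theorem reps_sound : ∀ (ds : List (T3 × T3)) (css : List (List Cert)),
    chkReps ds css = true → ∀ d ∈ ds, ∃ cs, chkU (Uof (repL d)) cs = true
  | [], _, _, d, hd => absurd hd (by simp)
  | d :: ds, [], h, _, _ => absurd h (by simp [chkReps])
  | d :: ds, cs :: css, h, d', hd' => by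
    rw [chkReps, Bool.and_eq_true] at h
    rcases List.mem_cons.1 hd' with rfl | h1
    · exact ⟨cs, h.1⟩
    · exact reps_sound ds css h.2 d' h1

theorem type_sound {d : T3 × T3} (hd : d ∈ reps) (h : Cfg K ((repL d).map vec7)) :
    (7 : K) = 0 := by
  obtain ⟨cs, hcs⟩ := reps_sound reps certs kern_reps d hd
  exact rep_sound h hcs

theorem vec7_sc (c : ℕ) (a : T3) : vec7 (sc c a) = (c : ZMod 7) • vec7 a := by
  funext i
  fin_cases i <;> simp [vec7, sc]

theorem vec7_comb (d a b c : T3) : vec7 (comb d a b c) =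
    vec7 d ᵥ* Matrix.of ![vec7 a, vec7 b, vec7 c] := by
  funext i
  rw [vecMul, dotProduct, Fin.sum_univ_three]
  fin_cases i <;> simp [vec7, comb] <;> ring

theorem vec7_congr {a b : T3} (h : eq7 a b = true) : vec7 a = vec7 b := by
  rw [eq7, Bool.and_eq_true, Bool.and_eq_true, beq_iff_eq, beq_iff_eq, beq_iff_eq] at h
  obtain ⟨⟨h1, h2⟩, h3⟩ := h
  funext i
  fin_cases i
  · exact (ZMod.natCast_eq_natCast_iff _ _ 7).2 h1
  · exact (ZMod.natCast_eq_natCast_iff _ _ 7).2 h2
  · exact (ZMod.natCast_eq_natCast_iff _ _ 7).2 h3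

theorem nz_cast {c : ℕ} (h : nz c = true) : (c : ZMod 7) ≠ 0 := by
  rw [nz, bne_iff_ne] at h
  intro h0
  apply h
  rw [ZMod.natCast_eq_zero_iff] at h0
  omega

theorem det_of_D7 {a b c : T3} (h : (D7 a b c != 0) = true) :
    (Matrix.of ![vec7 a, vec7 b, vec7 c]).det ≠ 0 := by
  rw [bne_iff_ne, Ne, D7_zero] at h
  intro h0
  apply h
  rw [← h0, Matrix.det_fin_three]
  simp [Dt]
  ring

theorem chkE_sound {L : List T3} (h : Cfg K (L.map vec7)) {x : ℕ} (hx : chkE L x = true) :
    (7 : K) = 0 := by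
  unfold chkE at hx
  split at hx
  next c0 c1 c2 c3 c4 c5 d h0 h1 h2 h3 h4 h5 h6 =>
    simp only [Bool.and_eq_true] at hx
    obtain ⟨⟨⟨⟨⟨⟨⟨⟨n0, n1⟩, n2⟩, n3⟩, n4⟩, hD⟩, e3⟩, e4⟩, e5⟩ := hx
    refine type_sound (List.mem_of_getElem? h6) ?_
    have hdet := det_of_D7 hD
    have m : ∀ {i c}, L[i]? = some c → vec7 c ∈ L.map vec7 := fun h =>
      List.mem_map_of_mem (List.mem_of_getElem? h)
    have g3 := vec7_congr e3
    have g4 := vec7_congr e4
    have g5 := vec7_congr e5
    rw [vec7_comb] at g3 g4 g5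
    rw [vec7_sc (dig x 9)] at g4
    rw [vec7_sc (dig x 10)] at g5
    refine h.trans _ hdet ?_
    intro c' hc'
    simp only [repL, List.map_cons, List.map_nil, List.mem_cons, List.not_mem_nil, or_false] at hc'
    rcases hc' with rfl | rfl | rfl | rfl | rfl | rfl
    · refine ⟨_, m h0, (dig x 6 : ZMod 7), nz_cast n0, ?_⟩
      rw [← vec7_sc]
      funext i
      rw [vecMul, dotProduct, Fin.sum_univ_three]
      fin_cases i <;> simp [vec7]
    · refine ⟨_, m h1, (dig x 7 : ZMod 7), nz_cast n1, ?_⟩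
      rw [← vec7_sc]
      funext i
      rw [vecMul, dotProduct, Fin.sum_univ_three]
      fin_cases i <;> simp [vec7]
    · refine ⟨_, m h2, (dig x 8 : ZMod 7), nz_cast n2, ?_⟩
      rw [← vec7_sc]
      funext i
      rw [vecMul, dotProduct, Fin.sum_univ_three]
      fin_cases i <;> simp [vec7]
    · exact ⟨_, m h3, 1, one_ne_zero, by rw [one_smul]; exact g3⟩
    · exact ⟨_, m h4, _, nz_cast n3, g4⟩
    · exact ⟨_, m h5, _, nz_cast n4, g5⟩
  next => exact absurd hx (by simp)

theorem tab_sound : ∀ (rs : List (List (ℕ × ℕ))) (p₀ : ℕ), chkTab rs p₀ = true →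
    ∀ p, p₀ ≤ p → p < 57 → ∃ row, chkRow row p = true
  | [], p₀, h, p, h1, h2 => by
    rw [chkTab, beq_iff_eq] at h
    omega
  | r :: rs, p₀, h, p, h1, h2 => by
    rw [chkTab, Bool.and_eq_true] at h
    rcases h1.eq_or_lt with rfl | h3
    · exact ⟨r, h.1⟩
    · exact tab_sound rs (p₀ + 1) h.2 p h3 h2

/-- step B for codes, `p < p'` -/
theorem stepB_lt {p p' : ℕ} (hpp : p < p') (hp' : p' < 57) (hp : excl p = false)
    (hp2 : excl p' = false) (h : Cfg K ((normL (1, 1, 1) p p').map vec7)) : (7 : K) = 0 := by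
  obtain ⟨row, hrow⟩ := tab_sound rows 0 kern_tab p (Nat.zero_le _) (by omega)
  unfold chkRow at hrow
  rw [hp, Bool.false_or, List.all_eq_true] at hrow
  have h1 := hrow p' (List.mem_range.2 hp')
  rw [hp2, Bool.false_or, show p'.ble p = false by
    rw [← Bool.not_eq_true, Nat.ble_eq]; omega, Bool.false_or] at h1
  unfold chkPair at h1
  rw [Bool.or_eq_true] at h1
  rcases h1 with h2 | h2
  · rw [List.any_eq_true] at h2
    obtain ⟨e, -, he⟩ := h2
    rw [Bool.and_eq_true] at he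
    exact chkE_sound h he.2
  · rw [Nat.blt_eq] at h2
    exact (small h h2).elim

/-- step B for codes -/
theorem stepB_code {p p' : ℕ} (hpp : p ≠ p') (hp1 : p < 57) (hp' : p' < 57) (hp : excl p = false)
    (hp2 : excl p' = false) (h : Cfg K ((normL (1, 1, 1) p p').map vec7)) : (7 : K) = 0 := by
  rcases Nat.lt_or_gt_of_ne hpp with h1 | h1
  · exact stepB_lt h1 hp' hp hp2 h
  · refine stepB_lt h1 hp1 hp2 hp (h.mono ?_)
    intro c hc
    refine ⟨c, ?_, 1, one_ne_zero, (one_smul _ _).symm⟩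
    simp only [normL, List.map_cons, List.map_nil, List.mem_cons, List.not_mem_nil,
      or_false] at hc ⊢
    tauto

/-- step C for codes -/
theorem stepC_lt {q : T3} (hq : chkQ q = true) {p p' : ℕ} (hpp : p < p') (hp' : p' < 57)
    (h1 : full (pt p) = false) (h2 : full (pt p') = false)
    (h3 : ∀ c ∈ [(1, 0, 0), (0, 1, 0), (0, 0, 1), q], vec7 (pt p) ≠ vec7 c ∧
      vec7 (pt p') ≠ vec7 c)
    (h : Cfg K ((normL q p p').map vec7)) : False := by
  unfold chkQ at hq
  rw [List.all_eq_true] at hq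
  have h4 := hq p (List.mem_range.2 (by omega))
  rw [h1, Bool.false_or, List.all_eq_true] at h4
  have h5 := h4 p' (List.mem_range.2 hp')
  have g : ∀ c ∈ [(1, 0, 0), (0, 1, 0), (0, 0, 1), q], eq7 (pt p) c = false ∧
      eq7 (pt p') c = false := by
    intro c hc
    obtain ⟨g1, g2⟩ := h3 c hc
    exact ⟨by rw [← Bool.not_eq_true]; exact fun h => g1 (vec7_congr h),
      by rw [← Bool.not_eq_true]; exact fun h => g2 (vec7_congr h)⟩
  rw [h2, show p'.ble p = false by rw [← Bool.not_eq_true, Nat.ble_eq]; omega,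
    (g (1, 0, 0) (by simp)).1, (g (0, 1, 0) (by simp)).1, (g (0, 0, 1) (by simp)).1,
    (g q (by simp)).1, (g (1, 0, 0) (by simp)).2, (g (0, 1, 0) (by simp)).2,
    (g (0, 0, 1) (by simp)).2, (g q (by simp)).2] at h5
  simp only [Bool.false_or] at h5
  rw [Nat.blt_eq] at h5
  exact small h h5

theorem stepC_code {q : T3} (hq : chkQ q = true) {p p' : ℕ} (hpp : p ≠ p') (hp1 : p < 57)
    (hp' : p' < 57) (h1 : full (pt p) = false) (h2 : full (pt p') = false)
    (h3 : ∀ c ∈ [(1, 0, 0), (0, 1, 0), (0, 0, 1), q], vec7 (pt p) ≠ vec7 c ∧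
      vec7 (pt p') ≠ vec7 c)
    (h : Cfg K ((normL q p p').map vec7)) : False := by
  rcases Nat.lt_or_gt_of_ne hpp with h4 | h4
  · exact stepC_lt hq h4 hp' h1 h2 h3 h
  · refine stepC_lt hq h4 hp1 h2 h1 (fun c hc => (h3 c hc).symm) (h.mono ?_)
    intro c hc
    refine ⟨c, ?_, 1, one_ne_zero, (one_smul _ _).symm⟩
    simp only [normL, List.map_cons, List.map_nil, List.mem_cons, List.not_mem_nil,
      or_false] at hc ⊢
    tauto

/-- no configuration off five lines through a point -/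
theorem conc_code {a b c : ℕ} (ha : a < 7) (hb : b < 7) (hc : c < 7) (ha0 : a ≠ 0) (hb0 : b ≠ 0)
    (hc0 : c ≠ 0) (hab : a ≠ b) (hac : a ≠ c) (hbc : b ≠ c)
    (h : Cfg K (([(1, 0, 0), (0, 1, 0), (1, a, 0), (1, b, 0), (1, c, 0)] : List T3).map vec7)) :
    False := by
  have h1 := kern_conc
  unfold chkConc at h1
  rw [List.all_eq_true] at h1
  have h2 := h1 a (List.mem_range.2 ha)
  rw [List.all_eq_true] at h2
  have h3 := h2 b (List.mem_range.2 hb)
  rw [List.all_eq_true] at h3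
  have h4 := h3 c (List.mem_range.2 hc)
  rw [show (a == 0) = false from beq_eq_false_iff_ne.2 ha0,
    show (b == 0) = false from beq_eq_false_iff_ne.2 hb0,
    show (c == 0) = false from beq_eq_false_iff_ne.2 hc0,
    show (a == b) = false from beq_eq_false_iff_ne.2 hab,
    show (a == c) = false from beq_eq_false_iff_ne.2 hac,
    show (b == c) = false from beq_eq_false_iff_ne.2 hbc] at h4
  simp only [Bool.false_or] at h4
  rw [Nat.blt_eq] at h4
  exact small h h4

end Pool.Agent.Helper21_Gamma7
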