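import Pool.Agent.Helper21_Gamma7.Cert

/-!
Soundness of the certificates.
-/

namespace Pool.Agent.Helper21_Gamma7

open Pool.Agent.Helper61_Gamma

universe v

/-- One step: the point `t` is the intersection of the lines through the known points with numbers
`i, j` and `k, l`, and has coordinates `u` up to the factor `g`. -/
structure Ent where
  t : ℕ
  u : PV
  i : ℕ
  j : ℕ
  k : ℕ
  l : ℕ
  g : Pl

structure Cert where
  p1 : ℕ
  p2 : ℕ
  p3 : ℕ
  p4 : ℕ
  par : Option ℕ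
  ents : List Ent
  rels : List (ℕ × ℕ × ℕ × Pl)

abbrev Kn := List (ℕ × PV)

def stepOK (kn : Kn) (e : Ent) : Bool :=
  match kn[e.i]?, kn[e.j]?, kn[e.k]?, kn[e.l]? with
  | some a, some b, some c, some d =>
    (D7 (pt e.t) (pt a.1) (pt b.1) == 0) && (D7 (pt e.t) (pt c.1) (pt d.1) == 0) &&
    (D7 (pt a.1) (pt b.1) (pt c.1) != 0) && (D7 (pt a.1) (pt c.1) (pt d.1) != 0) &&
    (D7 (pt e.t) (pt a.1) (pt c.1) != 0) &&
    eqP (crossP (crossP a.2 b.2) (crossP c.2 d.2)) (scaleP e.g e.u)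
  | _, _, _, _ => false

def runE : Kn → List Ent → Option Kn
  | kn, [] => some kn
  | kn, e :: es => if stepOK kn e then runE (kn ++ [(e.t, e.u)]) es else none

def relSum (kn : Kn) : List (ℕ × ℕ × ℕ × Pl) → Option Pl
  | [] => some []
  | r :: rs =>
    match kn[r.1]?, kn[r.2.1]?, kn[r.2.2.1]?, relSum kn rs with
    | some a, some b, some c, some s =>
      if D7 (pt a.1) (pt b.1) (pt c.1) == 0 then
        some (padd (pmul r.2.2.2 (dotP a.2 (crossP b.2 c.2))) s) else none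
    | _, _, _, _ => none

def e1 : PV := ([1], [], [])
def e2 : PV := ([], [1], [])
def e3 : PV := ([], [], [1])
def e4 : PV := ([1], [1], [1])
def e5 : PV := ([1], [0, 1], [])

def Cert.init (C : Cert) : Kn :=
  (C.p1, e1) :: (C.p2, e2) :: (C.p3, e3) :: (C.p4, e4) ::
    (match C.par with
      | none => []
      | some p => [(p, e5)])

def Cert.sup (C : Cert) : List ℕ :=
  C.p1 :: C.p2 :: C.p3 :: C.p4 ::
    ((match C.par with
      | none => []
      | some p => [p]) ++ C.ents.map Ent.t)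

def Cert.frameOK (C : Cert) : Bool :=
  (D7 (pt C.p1) (pt C.p2) (pt C.p3) != 0) && (D7 (pt C.p4) (pt C.p2) (pt C.p3) != 0) &&
  (D7 (pt C.p1) (pt C.p4) (pt C.p3) != 0) && (D7 (pt C.p1) (pt C.p2) (pt C.p4) != 0) &&
  (match C.par with
    | none => true
    | some p => (D7 (pt C.p1) (pt C.p2) (pt p) == 0) && (D7 (pt p) (pt C.p2) (pt C.p3) != 0))

def Cert.ok (C : Cert) : Bool :=
  C.frameOK &&
  match runE C.init C.ents with
  | none => false
  | some kn =>
    match relSum kn C.rels with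
    | none => false
    | some s => peq s [7]

section sound

variable {K : Type v} [Field K]

/-- `W` represents the points with property `A` -/
def Rep7 (A : ℕ → Prop) (W : ℕ → Fin 3 → K) : Prop :=
  ∀ a b c, A a → A b → A c → (D7 (pt a) (pt b) (pt c) = 0 ↔ Dt (W a) (W b) (W c) = 0)

/-- The known points have the coordinates of the list. -/
def Inv (A : ℕ → Prop) (W : ℕ → Fin 3 → K) (t : K) (kn : Kn) : Prop :=
  ∀ x ∈ kn, A x.1 ∧ ∃ μ : K, μ ≠ 0 ∧ W x.1 = μ • vev t x.2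

theorem step_sound {A : ℕ → Prop} {W : ℕ → Fin 3 → K} {t : K} (hR : Rep7 A W) {kn : Kn}
    (hI : Inv A W t kn) {e : Ent} (hA : A e.t) (he : stepOK kn e = true) :
    Inv A W t (kn ++ [(e.t, e.u)]) := by
  unfold stepOK at he
  split at he
  next a b c d ha hb hc hd =>
    simp only [Bool.and_eq_true, beq_iff_eq, bne_iff_ne] at he
    obtain ⟨⟨⟨⟨⟨h1, h2⟩, h3⟩, h4⟩, h5⟩, h6⟩ := he
    obtain ⟨hAa, μa, hμa, hWa⟩ := hI a (List.mem_of_getElem? ha)
    obtain ⟨hAb, μb, hμb, hWb⟩ := hI b (List.mem_of_getElem? hb)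
    obtain ⟨hAc, μc, hμc, hWc⟩ := hI c (List.mem_of_getElem? hc)
    obtain ⟨hAd, μd, hμd, hWd⟩ := hI d (List.mem_of_getElem? hd)
    have k5 : Dt (W e.t) (W a.1) (W c.1) ≠ 0 := fun h => h5 ((hR _ _ _ hA hAa hAc).2 h)
    obtain ⟨μ, hμ, hx⟩ := step_K ((hR _ _ _ hA hAa hAb).1 h1) ((hR _ _ _ hA hAc hAd).1 h2)
      (fun h => h3 ((hR _ _ _ hAa hAb hAc).2 h)) (fun h => h4 ((hR _ _ _ hAa hAc hAd).2 h)) k5
    rw [hWa, hWb, hWc, hWd, cr_smul, cr_smul, cr_smul, ← vev_cross, ← vev_cross, ← vev_cross,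
      vev_eq t h6, vev_scale, smul_smul, smul_smul] at hx
    intro x hx'
    rcases List.mem_append.1 hx' with hx' | hx'
    · exact hI x hx'
    · rw [List.mem_singleton] at hx'
      subst hx'
      refine ⟨hA, _, ?_, hx⟩
      intro h0
      rw [h0, zero_smul] at hx
      apply k5
      rw [hx]
      simp [Dt]
  · exact absurd he (by simp)

theorem run_sound {A : ℕ → Prop} {W : ℕ → Fin 3 → K} {t : K} (hR : Rep7 A W) :
    ∀ (es : List Ent) (kn kn' : Kn), Inv A W t kn → (∀ e ∈ es, A e.t) → runE kn es = some kn' →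
      Inv A W t kn'
  | [], kn, kn', hI, _, h => by
    simp only [runE, Option.some.injEq] at h
    rw [← h]
    exact hI
  | e :: es, kn, kn', hI, hA, h => by
    unfold runE at h
    split at h
    next he =>
      exact run_sound hR es _ _ (step_sound hR hI (hA e (by simp)) he)
        (fun e' he' => hA e' (by simp [he'])) h
    next => exact absurd h (by simp)

theorem rel_sound {A : ℕ → Prop} {W : ℕ → Fin 3 → K} {t : K} (hR : Rep7 A W) {kn : Kn}
    (hI : Inv A W t kn) : ∀ (rs : List (ℕ × ℕ × ℕ × Pl)) (s : Pl), relSum kn rs = some s →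
      pev t s = 0
  | [], s, h => by
    simp only [relSum, Option.some.injEq] at h
    rw [← h]
    rfl
  | r :: rs, s, h => by
    unfold relSum at h
    split at h
    next a b c s' ha hb hc hs =>
      split at h
      next hcol =>
        rw [beq_iff_eq] at hcol
        simp only [Option.some.injEq] at h
        obtain ⟨hAa, μa, hμa, hWa⟩ := hI a (List.mem_of_getElem? ha)
        obtain ⟨hAb, μb, hμb, hWb⟩ := hI b (List.mem_of_getElem? hb)
        obtain ⟨hAc, μc, hμc, hWc⟩ := hI c (List.mem_of_getElem? hc)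
        have h1 := (hR _ _ _ hAa hAb hAc).1 hcol
        rw [hWa, hWb, hWc, Dt_smul3, Dt_vev] at h1
        have h2 := (mul_eq_zero.1 h1).resolve_left (mul_ne_zero (mul_ne_zero hμa hμb) hμc)
        rw [← h, pev_add, pev_mul, h2, rel_sound hR hI rs s' hs]
        ring
      next => exact absurd h (by simp)
    next => exact absurd h (by simp)

theorem Dt_mulVec (M : Matrix (Fin 3) (Fin 3) K) (a b c : Fin 3 → K) :
    Dt (M.mulVec a) (M.mulVec b) (M.mulVec c) = M.det * Dt a b c := by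
  rw [Matrix.det_fin_three]
  simp only [Dt, Matrix.mulVec, dotProduct, Fin.sum_univ_three]
  ring

theorem Dt_e12 (x y : K) (v : Fin 3 → K) :
    Dt (x • ![1, 0, 0]) (y • ![0, 1, 0]) v = x * y * v 2 := by
  simp [Dt]
  ring

theorem Dt_e23 (x y : K) (v : Fin 3 → K) :
    Dt v (x • ![0, 1, 0]) (y • ![0, 0, 1]) = v 0 * (x * y) := by
  simp [Dt]

theorem frame_sound {A : ℕ → Prop} {W : ℕ → Fin 3 → K} (hR : Rep7 A W) {C : Cert}
    (hC : C.frameOK = true) (hA : ∀ x ∈ C.sup, A x) :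
    ∃ (W' : ℕ → Fin 3 → K) (t : K), Rep7 A W' ∧ Inv A W' t C.init := by
  unfold Cert.frameOK at hC
  simp only [Bool.and_eq_true, bne_iff_ne] at hC
  obtain ⟨⟨⟨⟨h1, h2⟩, h3⟩, h4⟩, h5⟩ := hC
  have a1 : A C.p1 := hA _ (by simp [Cert.sup])
  have a2 : A C.p2 := hA _ (by simp [Cert.sup])
  have a3 : A C.p3 := hA _ (by simp [Cert.sup])
  have a4 : A C.p4 := hA _ (by simp [Cert.sup])
  have k1 : Dt (W C.p1) (W C.p2) (W C.p3) ≠ 0 := fun h => h1 ((hR _ _ _ a1 a2 a3).2 h)
  have k2 : Dt (W C.p4) (W C.p2) (W C.p3) ≠ 0 := fun h => h2 ((hR _ _ _ a4 a2 a3).2 h)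
  have k3 : Dt (W C.p1) (W C.p4) (W C.p3) ≠ 0 := fun h => h3 ((hR _ _ _ a1 a4 a3).2 h)
  have k4 : Dt (W C.p1) (W C.p2) (W C.p4) ≠ 0 := fun h => h4 ((hR _ _ _ a1 a2 a4).2 h)
  set w1 := W C.p1 with hw1
  set w2 := W C.p2 with hw2
  set w3 := W C.p3 with hw3
  set w4 := W C.p4 with hw4
  let B : Matrix (Fin 3) (Fin 3) K := Matrix.of fun i j =>
    ![Dt w4 w2 w3 * w1 i, Dt w1 w4 w3 * w2 i, Dt w1 w2 w4 * w3 i] j
  have hB : ∀ x : Fin 3 → K, B.mulVec x = (Dt w4 w2 w3 * x 0) • w1 + (Dt w1 w4 w3 * x 1) • w2 +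
      (Dt w1 w2 w4 * x 2) • w3 := by
    intro x
    funext i
    simp only [Matrix.mulVec, dotProduct, Fin.sum_univ_three, B, Matrix.of_apply,
      Matrix.cons_val_zero, Matrix.cons_val_one, Matrix.cons_val, Pi.add_apply, Pi.smul_apply,
      smul_eq_mul]
    ring
  have hdet : B.det = Dt w4 w2 w3 * Dt w1 w4 w3 * Dt w1 w2 w4 * Dt w1 w2 w3 := by
    rw [Matrix.det_fin_three]
    simp only [B, Matrix.of_apply, Matrix.cons_val_zero, Matrix.cons_val_one, Matrix.cons_val]
    simp only [Dt]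
    ring
  have hB0 : B.det ≠ 0 := by
    rw [hdet]
    exact mul_ne_zero (mul_ne_zero (mul_ne_zero k2 k3) k4) k1
  have hunit : IsUnit B.det := isUnit_iff_ne_zero.2 hB0
  have hinv : ∀ x : Fin 3 → K, B⁻¹.mulVec (B.mulVec x) = x := by
    intro x
    rw [Matrix.mulVec_mulVec, Matrix.nonsing_inv_mul _ hunit, Matrix.one_mulVec]
  have hinvdet : B⁻¹.det ≠ 0 := by
    intro h0
    have := congrArg Matrix.det (Matrix.nonsing_inv_mul _ hunit)
    rw [Matrix.det_mul, h0, zero_mul, Matrix.det_one] at this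
    exact zero_ne_one this
  have hRep : Rep7 A (fun p => B⁻¹.mulVec (W p)) := by
    intro a b c ha hb hc
    rw [hR a b c ha hb hc, Dt_mulVec, mul_eq_zero, or_iff_right hinvdet]
  -- coordinates of the frame
  have c1 : B⁻¹.mulVec w1 = (Dt w4 w2 w3)⁻¹ • ![1, 0, 0] := by
    conv_lhs => rw [show w1 = B.mulVec ((Dt w4 w2 w3)⁻¹ • ![1, 0, 0]) by
      rw [hB]
      simp [mul_inv_cancel₀ k2]]
    rw [hinv]
  have c2 : B⁻¹.mulVec w2 = (Dt w1 w4 w3)⁻¹ • ![0, 1, 0] := by
    conv_lhs => rw [show w2 = B.mulVec ((Dt w1 w4 w3)⁻¹ • ![0, 1, 0]) by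
      rw [hB]
      simp [mul_inv_cancel₀ k3]]
    rw [hinv]
  have c3 : B⁻¹.mulVec w3 = (Dt w1 w2 w4)⁻¹ • ![0, 0, 1] := by
    conv_lhs => rw [show w3 = B.mulVec ((Dt w1 w2 w4)⁻¹ • ![0, 0, 1]) by
      rw [hB]
      simp [mul_inv_cancel₀ k4]]
    rw [hinv]
  have c4 : B⁻¹.mulVec w4 = (Dt w1 w2 w3)⁻¹ • ![1, 1, 1] := by
    conv_lhs => rw [show w4 = B.mulVec ((Dt w1 w2 w3)⁻¹ • ![1, 1, 1]) by
      rw [hB]
      have e : Dt w1 w2 w3 • w4 = Dt w4 w2 w3 • w1 + Dt w1 w4 w3 • w2 + Dt w1 w2 w4 • w3 := by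
        funext i
        simp only [Pi.add_apply, Pi.smul_apply, smul_eq_mul, Dt]
        fin_cases i <;> simp <;> ring
      have e' : w4 = (Dt w1 w2 w3)⁻¹ • (Dt w1 w2 w3 • w4) := by
        rw [smul_smul, inv_mul_cancel₀ k1, one_smul]
      conv_lhs => rw [e', e]
      simp only [smul_add, smul_smul, Pi.smul_apply, smul_eq_mul, Matrix.cons_val_zero,
        Matrix.cons_val_one, Matrix.cons_val, mul_one]
      ring_nf]
    rw [hinv]
  have v1 : ∀ t : K, vev t e1 = ![1, 0, 0] := fun t => by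
    funext i
    fin_cases i <;> simp [vev, e1, pev]
  have v2 : ∀ t : K, vev t e2 = ![0, 1, 0] := fun t => by
    funext i
    fin_cases i <;> simp [vev, e2, pev]
  have v3 : ∀ t : K, vev t e3 = ![0, 0, 1] := fun t => by
    funext i
    fin_cases i <;> simp [vev, e3, pev]
  have v4 : ∀ t : K, vev t e4 = ![1, 1, 1] := fun t => by
    funext i
    fin_cases i <;> simp [vev, e4, pev]
  have v5 : ∀ t : K, vev t e5 = ![1, t, 0] := fun t => by
    funext i
    fin_cases i <;> simp [vev, e5, pev]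
  have base : ∀ t : K, ∀ x ∈ ([(C.p1, e1), (C.p2, e2), (C.p3, e3), (C.p4, e4)] : Kn),
      A x.1 ∧ ∃ μ : K, μ ≠ 0 ∧ B⁻¹.mulVec (W x.1) = μ • vev t x.2 := by
    intro t x hx
    simp only [List.mem_cons, List.not_mem_nil, or_false] at hx
    rcases hx with rfl | rfl | rfl | rfl
    · exact ⟨a1, _, inv_ne_zero k2, by rw [v1]; exact c1⟩
    · exact ⟨a2, _, inv_ne_zero k3, by rw [v2]; exact c2⟩
    · exact ⟨a3, _, inv_ne_zero k4, by rw [v3]; exact c3⟩
    · exact ⟨a4, _, inv_ne_zero k1, by rw [v4]; exact c4⟩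
  cases hp : C.par with
  | none =>
    refine ⟨fun p => B⁻¹.mulVec (W p), 0, hRep, ?_⟩
    intro x hx
    rw [Cert.init, hp] at hx
    exact base 0 x hx
  | some p =>
    rw [hp] at h5
    simp only [Bool.and_eq_true, beq_iff_eq, bne_iff_ne] at h5
    have ap : A p := hA _ (by simp [Cert.sup, hp])
    have m1 := (hRep _ _ _ a1 a2 ap).1 h5.1
    have m2 : Dt (B⁻¹.mulVec (W p)) (B⁻¹.mulVec (W C.p2)) (B⁻¹.mulVec (W C.p3)) ≠ 0 :=
      fun h => h5.2 ((hRep _ _ _ ap a2 a3).2 h)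
    set y := B⁻¹.mulVec (W p) with hy
    change Dt (B⁻¹.mulVec w1) (B⁻¹.mulVec w2) y = 0 at m1
    change Dt y (B⁻¹.mulVec w2) (B⁻¹.mulVec w3) ≠ 0 at m2
    rw [c1, c2] at m1
    rw [c2, c3] at m2
    have y2 : y 2 = 0 := by
      rw [Dt_e12] at m1
      exact (mul_eq_zero.1 m1).resolve_left (mul_ne_zero (inv_ne_zero k2) (inv_ne_zero k3))
    have y0 : y 0 ≠ 0 := by
      intro h0
      apply m2
      rw [Dt_e23, h0, zero_mul]
    refine ⟨fun p => B⁻¹.mulVec (W p), y 1 / y 0, hRep, ?_⟩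
    intro x hx
    rw [Cert.init, hp] at hx
    have hx' : x ∈ ([(C.p1, e1), (C.p2, e2), (C.p3, e3), (C.p4, e4)] : Kn) ∨ x = (p, e5) := by
      simp only [List.mem_cons, List.not_mem_nil, or_false] at hx ⊢
      tauto
    rcases hx' with hx' | rfl
    · exact base _ x hx'
    · refine ⟨ap, y 0, y0, ?_⟩
      change y = _
      rw [v5]
      funext i
      fin_cases i
      · simp
      · simp [mul_div_cancel₀ _ y0]
      · simp [y2]

/-- **Soundness**: if all points of a correct certificate are represented, then `7 = 0`. -/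
theorem cert_sound {A : ℕ → Prop} {W : ℕ → Fin 3 → K} (hR : Rep7 A W) {C : Cert}
    (hC : C.ok = true) (hA : ∀ x ∈ C.sup, A x) : (7 : K) = 0 := by
  unfold Cert.ok at hC
  rw [Bool.and_eq_true] at hC
  obtain ⟨hfr, hC⟩ := hC
  obtain ⟨W', t, hR', hI⟩ := frame_sound hR hfr hA
  split at hC
  next => exact absurd hC (by simp)
  next kn hkn =>
    split at hC
    next => exact absurd hC (by simp)
    next s hs =>
      have hI' := run_sound hR' C.ents _ _ hI (fun e he => hA _ (by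
        unfold Cert.sup
        simp only [List.mem_cons, List.mem_append, List.mem_map]
        right; right; right; right; right
        exact ⟨e, he, rfl⟩)) hkn
      have h0 := rel_sound hR' hI' C.rels s hs
      have h1 := pev_eq t hC
      rw [h0] at h1
      simp [pev] at h1
      exact h1.symm

end sound

end Pool.Agent.Helper21_Gamma7
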