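import Pool.Agent.Helper21_Gamma7.Main6
import Pool.Agent.Helper61_Gamma.Thm

/-!
The bound for `p = 7`.
-/

namespace Pool.Agent.Helper21_Gamma7

open Pool.Agent.Helper61_Gamma Matrix Configuration Projectivization
open scoped LinearAlgebra.Projectivization

universe u v

instance factSeven : Fact (Nat.Prime 7) := ⟨by norm_num⟩

/-- the plane over `GF(7)` -/
abbrev PP7 := ℙ (ZMod 7) (Fin 3 → ZMod 7)

theorem np_rep {s t : PP7} (h : s ≠ t) : NP s.rep t.rep := by
  have h1 := (Projectivization.independent_pair_iff_ne s t).2 h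
  rw [Projectivization.independent_iff] at h1
  have h2 : LinearIndependent (ZMod 7) ![s.rep, t.rep] := by
    have e : (Projectivization.rep ∘ ![s, t]) = ![s.rep, t.rep] := by
      funext i
      fin_cases i <;> rfl
    rwa [e] at h1
  have h3 := crossProduct_ne_zero_iff_linearIndependent.2 h2
  obtain ⟨i, hi⟩ := Function.ne_iff.1 h3
  refine ⟨Pi.single i 1, ?_⟩
  intro h4
  apply hi
  rw [Pi.zero_apply, ← h4, cross_apply, Dt]
  fin_cases i
  · simp
    ring
  · simp
    ring
  · simp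

theorem Dt_cyc {K : Type v} [Field K] (a b c : Fin 3 → K) : Dt b c a = Dt a b c := by
  simp only [Dt]
  ring

/-- the representation -/
noncomputable def WW {K : Type v} [Field K] (ω : PP7) (m k : PP7 → K) (p : PP7) : Fin 3 → K :=
  open Classical in if p = ω then ![0, 0, 1] else ![1, m p, k p]

theorem WW_om {K : Type v} [Field K] (ω : PP7) (m k : PP7 → K) :
    WW ω m k ω = ![0, 0, 1] := by
  unfold WW
  rw [if_pos rfl]

theorem WW_ne {K : Type v} [Field K] {ω : PP7} (m k : PP7 → K) {p : PP7} (h : p ≠ ω) :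
    WW ω m k p = ![1, m p, k p] := by
  unfold WW
  rw [if_neg h]

section

variable {K : Type v} [Field K] [DecidableEq PP7] {S : Finset PP7} {ω : PP7} {m k : PP7 → K}

omit [DecidableEq PP7] in
theorem mem_ln_rep {p q r : PP7} (h : p ≠ q) : r ∈ ln PP7 p q ↔ Dt p.rep q.rep r.rep = 0 := by
  have h1 := mem_ln_mk p.rep_nonzero q.rep_nonzero r.rep_nonzero
    (by rw [mk_rep, mk_rep]; exact h)
  rw [mk_rep, mk_rep, mk_rep] at h1
  exact h1

theorem rel_om (hC : Coord PP7 S ω m k) {p q : PP7} (hp : p ∈ S) (hq : q ∈ S) (hpq : p ≠ q)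
    (hpo : p ≠ ω) (hqo : q ≠ ω) :
    Dt p.rep q.rep ω.rep = 0 ↔ Dt (WW ω m k p) (WW ω m k q) (WW ω m k ω) = 0 := by
  rw [← mem_ln_rep hpq, hC.om p (Finset.mem_erase.2 ⟨hpo, hp⟩) q (Finset.mem_erase.2 ⟨hqo, hq⟩)
    hpq, WW_om, WW_ne m k hpo, WW_ne m k hqo]
  simp only [Dt, Matrix.cons_val_zero, Matrix.cons_val_one, Matrix.cons_val]
  constructor
  · intro h
    rw [h]
    ring
  · intro h
    linear_combination -h

theorem rel (hC : Coord PP7 S ω m k) {p q r : PP7} (hp : p ∈ S) (hq : q ∈ S) (hr : r ∈ S) :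
    Dt p.rep q.rep r.rep = 0 ↔ Dt (WW ω m k p) (WW ω m k q) (WW ω m k r) = 0 := by
  by_cases hpq : p = q
  · subst hpq
    refine iff_of_true ?_ ?_ <;> (simp only [Dt]; ring)
  by_cases hpr : p = r
  · subst hpr
    refine iff_of_true ?_ ?_ <;> (simp only [Dt]; ring)
  by_cases hqr : q = r
  · subst hqr
    refine iff_of_true ?_ ?_ <;> (simp only [Dt]; ring)
  by_cases hro : r = ω
  · subst hro
    exact rel_om hC hp hq hpq hpr hqr
  by_cases hpo : p = ω
  · subst hpo
    rw [← Dt_cyc p.rep, ← Dt_cyc (WW p m k p)]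
    exact rel_om hC hq hr hqr (Ne.symm hpq) hro
  by_cases hqo : q = ω
  · subst hqo
    rw [Dt_cyc r.rep, Dt_cyc (WW q m k r)]
    exact rel_om hC hr hp (Ne.symm hpr) hro hpo
  rw [← mem_ln_rep hpq, hC.col p (Finset.mem_erase.2 ⟨hpo, hp⟩) q (Finset.mem_erase.2 ⟨hqo, hq⟩)
    r (Finset.mem_erase.2 ⟨hro, hr⟩) hpq hpr hqr, WW_ne m k hpo, WW_ne m k hqo, WW_ne m k hro]
  simp only [Dt, Matrix.cons_val_zero, Matrix.cons_val_one, Matrix.cons_val]
  constructor
  · intro h
    linear_combination h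
  · intro h
    linear_combination h

omit [DecidableEq PP7] in
theorem off_line {p ℓ : PP7} (h : p ∉ ℓ) : ℓ.rep ⬝ᵥ p.rep ≠ 0 := by
  intro h0
  apply h
  rw [ofField.mem_iff]
  have h1 : orthogonal (mk (ZMod 7) p.rep p.rep_nonzero) (mk (ZMod 7) ℓ.rep ℓ.rep_nonzero) := by
    rw [orthogonal_mk, dotProduct_comm]
    exact h0
  rwa [mk_rep, mk_rep] at h1

/-- six external lines -/
theorem six_of_coord [Fintype PP7] (hC : Coord PP7 S ω m k) (hS : S.card = 22)
    (ht : 6 ≤ tcount PP7 S 0) : (7 : K) = 0 := by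
  classical
  let T : Finset PP7 := Finset.univ.filter (fun ℓ : PP7 => rk S ℓ = 0)
  have hT : 6 ≤ T.card := ht
  obtain ⟨T', hT', hTc⟩ := Finset.exists_subset_card_eq hT
  let eT := T'.equivFinOfCardEq hTc
  let eS := S.equivFinOfCardEq hS
  have hoff : ∀ ℓ ∈ T', ∀ p ∈ S, p ∉ ℓ := by
    intro ℓ hℓ p hp hpl
    have h1 := (Finset.mem_filter.1 (hT' hℓ)).2
    rw [rk, Finset.card_eq_zero, Finset.filter_eq_empty_iff] at h1
    exact h1 hp hpl
  have h6 : Six K (fun i => ((eT.symm i : T') : PP7).rep) := by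
    refine ⟨⟨fun i => ((eS.symm i : S) : PP7).rep,
      fun i => WW ω m k ((eS.symm i : S) : PP7), ?_, ?_, ?_⟩, ?_⟩
    · intro i j hij
      apply np_rep
      intro h
      exact hij (eS.symm.injective (Subtype.ext h))
    · intro i j l
      exact rel hC (eS.symm i).2 (eS.symm j).2 (eS.symm l).2
    · intro c hc i
      obtain ⟨j, rfl⟩ := (List.mem_ofFn' _ _).1 hc
      exact off_line (hoff _ (eT.symm j).2 _ (eS.symm i).2)
    · intro i j hij
      apply np_rep
      intro h
      exact hij (eT.symm.injective (Subtype.ext h))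
  exact main6 h6

theorem no_coord_seven [Fintype PP7] (hC : Coord PP7 S ω m k) (hp : (7 : K) ≠ 0)
    (hS : S.card = 22) : False := by
  classical
  have ho : ProjectivePlane.order PP7 PP7 = 7 := by
    rw [order_PP, Nat.card_zmod]
  rcases Nat.lt_or_ge (tcount PP7 S 0) 6 with ht | ht
  · obtain ⟨X, j, hXS, hj1, hjq, hX1, hX2, ht1⟩ := tangents_of_rep hC
      (by rw [ho]; exact_mod_cast hp) (by rw [hS, ho]) (by rw [ho, hS]; omega)
    have h1 := tcount_le (L := PP7) X 3 1
    rw [ho] at hjq h1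
    rw [hS] at hX1 hX2
    have hX3 : 14 ≤ X.card := by omega
    have hX4 : X.card ≤ 21 := by omega
    norm_num at h1
    generalize X.card = x at *
    generalize tcount PP7 X 1 = t at *
    interval_cases j <;> interval_cases x <;> omega
  · exact hp (six_of_coord hC hS ht)

end

/-- every simple rank three matroid over `GF(7)` with `22` points forces the characteristic -/
theorem forces_seven : Forces.{u, v} 7 22 := by
  classical
  apply forces_of_coord 7 _ (by positivity)
  intro K _ S ω m k _ hC hp0 hS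
  have : Fintype PP7 := Fintype.ofFinite _
  exact no_coord_seven hC (by exact_mod_cast hp0) hS

end Pool.Agent.Helper21_Gamma7
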